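import Pool.Agent.Helper55.OneRel.Mask

set_option autoImplicit false

namespace Pool.Agent.Helper55.OneRel

/-! Arithmetization of runs of affine machines. -/

/-- An affine machine: the rule `τ` replaces `A w + B` by `A' w + B'` in every register. -/
structure Aff (ρ ι : Type) where
  A : ρ → ι → ℕ
  B : ρ → ι → ℕ
  A' : ρ → ι → ℕ
  B' : ρ → ι → ℕ

variable {ρ ι : Type}

/-- a step -/
def Aff.Step (F : Aff ρ ι) (m m' : ι → ℕ) : Prop :=
  ∃ (τ : ρ) (w : ι → ℕ), ∀ i, m i = F.A τ i * w i + F.B τ i ∧ m' i = F.A' τ i * w i + F.B' τ i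

/-- a run of length `T` ending in the zero configuration -/
def Aff.Run (F : Aff ρ ι) : ℕ → (ι → ℕ) → Prop
  | 0, m => ∀ i, m i = 0
  | T + 1, m => ∃ m', F.Step m m' ∧ F.Run T m'

/-- the number with `T` digits one in base `Q` -/
def rpu (Q : ℕ) : ℕ → ℕ
  | 0 => 0
  | T + 1 => 1 + Q * rpu Q T

variable [Fintype ρ] [Fintype ι]

/-- the arithmetical condition -/
def Aff.Cond (F : Aff ρ ι) (K c T : ℕ) (m : ι → ℕ) (N : ρ → ℕ) (W : ρ → ι → ℕ) : Prop :=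
  (∀ τ, Msk (N τ) (rpu (2 ^ (c + K)) T)) ∧ (∑ τ, N τ = rpu (2 ^ (c + K)) T) ∧
  (∀ τ i, Msk (W τ i) ((2 ^ c - 1) * N τ)) ∧
  ∀ i, ∑ τ, (F.A τ i * W τ i + F.B τ i * N τ) =
    m i + 2 ^ (c + K) * ∑ τ, (F.A' τ i * W τ i + F.B' τ i * N τ)

/-- bounds for the coefficients -/
structure Aff.Bd (F : Aff ρ ι) (K : ℕ) : Prop where
  pos : 0 < K
  card : Fintype.card ρ < 2 ^ K
  ab : ∀ τ i, F.A τ i + F.B τ i < 2 ^ K
  ab' : ∀ τ i, F.A' τ i + F.B' τ i < 2 ^ K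

theorem sum_single [DecidableEq ρ] (a b : ρ → ℕ) (Q : ℕ) (τ0 : ρ) (n w N W : ρ → ℕ)
    (hn0 : n τ0 = 1) (hn : ∀ τ, τ ≠ τ0 → n τ = 0) (hw : ∀ τ, τ ≠ τ0 → w τ = 0) :
    ∑ τ, (a τ * (w τ + Q * W τ) + b τ * (n τ + Q * N τ)) =
      (a τ0 * w τ0 + b τ0) + Q * ∑ τ, (a τ * W τ + b τ * N τ) := by
  have h1 : ∑ τ, (a τ * w τ + b τ * n τ) = a τ0 * w τ0 + b τ0 := by
    rw [Finset.sum_eq_single τ0]
    · rw [hn0, mul_one]
    · intro τ _ h
      rw [hn τ h, hw τ h]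
      simp
    · intro h
      exact absurd (Finset.mem_univ _) h
  rw [← h1, Finset.mul_sum, ← Finset.sum_add_distrib]
  refine Finset.sum_congr rfl fun τ _ => ?_
  ring

theorem coef_lt {a b w c K : ℕ} (h : a + b < 2 ^ K) (hw : w < 2 ^ c) :
    a * w + b < 2 ^ (c + K) := by
  have h1 : a * w ≤ a * (2 ^ c - 1) := Nat.mul_le_mul_left _ (by omega)
  have h2 : b ≤ b * 2 ^ c := Nat.le_mul_of_pos_right _ (Nat.two_pow_pos c)
  have h3 : a * (2 ^ c - 1) ≤ a * 2 ^ c := Nat.mul_le_mul_left _ (by omega)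
  have h4 : (a + b + 1) * 2 ^ c ≤ 2 ^ K * 2 ^ c := Nat.mul_le_mul_right _ h
  have h5 : 0 < 2 ^ c := Nat.two_pow_pos c
  rw [pow_add, mul_comm (2 ^ c)]
  calc a * w + b ≤ a * 2 ^ c + b * 2 ^ c := by omega
    _ < (a + b + 1) * 2 ^ c := by nlinarith
    _ ≤ _ := h4

omit [Fintype ι] in
theorem Aff.peel (F : Aff ρ ι) {K c T : ℕ} (hK : F.Bd K) {m : ι → ℕ} {N : ρ → ℕ}
    {W : ρ → ι → ℕ} (hm : ∀ i, m i < 2 ^ (c + K)) (h : F.Cond K c (T + 1) m N W) :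
    ∃ (τ : ρ) (w : ι → ℕ) (N' : ρ → ℕ) (W' : ρ → ι → ℕ),
      (∀ i, m i = F.A τ i * w i + F.B τ i) ∧
      (∀ i, F.A' τ i * w i + F.B' τ i < 2 ^ (c + K)) ∧
      F.Cond K c T (fun i => F.A' τ i * w i + F.B' τ i) N' W' := by
  classical
  obtain ⟨h1, h2, h3, h4⟩ := h
  have hQ : 0 < 2 ^ (c + K) := Nat.two_pow_pos _
  have hQ1 : 1 < 2 ^ (c + K) := Nat.one_lt_two_pow (by have := hK.pos; omega)
  have hcQ : 2 ^ c ≤ 2 ^ (c + K) := Nat.pow_le_pow_right (by norm_num) (by omega)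
  have hKQ : 2 ^ K ≤ 2 ^ (c + K) := Nat.pow_le_pow_right (by norm_num) (by omega)
  have hc0 : 0 < 2 ^ c := Nat.two_pow_pos _
  let n : ρ → ℕ := fun τ => N τ % 2 ^ (c + K)
  let N' : ρ → ℕ := fun τ => N τ / 2 ^ (c + K)
  let w : ρ → ι → ℕ := fun τ i => W τ i % 2 ^ (c + K)
  let W' : ρ → ι → ℕ := fun τ i => W τ i / 2 ^ (c + K)
  have hN : ∀ τ, N τ = n τ + 2 ^ (c + K) * N' τ := fun τ => (Nat.mod_add_div _ _).symm
  have hW : ∀ τ i, W τ i = w τ i + 2 ^ (c + K) * W' τ i := fun τ i => (Nat.mod_add_div _ _).symm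
  have hnlt : ∀ τ, n τ < 2 ^ (c + K) := fun τ => Nat.mod_lt _ hQ
  have hwlt : ∀ τ i, w τ i < 2 ^ (c + K) := fun τ i => Nat.mod_lt _ hQ
  have g1 : ∀ τ, n τ ≤ 1 ∧ Msk (N' τ) (rpu (2 ^ (c + K)) T) := by
    intro τ
    have := h1 τ
    rw [hN τ, rpu, Msk_cons (hnlt τ) hQ1] at this
    exact ⟨Msk_one.1 this.1, this.2⟩
  have hsn : ∑ τ, n τ < 2 ^ (c + K) := by
    calc ∑ τ, n τ ≤ ∑ _τ : ρ, 1 := Finset.sum_le_sum fun τ _ => (g1 τ).1
      _ = Fintype.card ρ := by simp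
      _ < 2 ^ K := hK.card
      _ ≤ _ := hKQ
  have hsum : ∑ τ, n τ + 2 ^ (c + K) * ∑ τ, N' τ = 1 + 2 ^ (c + K) * rpu (2 ^ (c + K)) T := by
    rw [Finset.mul_sum, ← Finset.sum_add_distrib, ← rpu, ← h2]
    exact Finset.sum_congr rfl fun τ _ => (hN τ).symm
  have hn1 : ∑ τ, n τ = 1 := by
    have := congrArg (· % 2 ^ (c + K)) hsum
    simp only [Nat.add_mul_mod_self_left] at this
    rwa [Nat.mod_eq_of_lt hsn, Nat.mod_eq_of_lt hQ1] at this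
  have hN1 : ∑ τ, N' τ = rpu (2 ^ (c + K)) T := by
    rw [hn1] at hsum
    exact Nat.eq_of_mul_eq_mul_left hQ (Nat.add_left_cancel hsum)
  obtain ⟨τ0, hτ0⟩ : ∃ τ0, n τ0 ≠ 0 := by
    by_contra hcon
    push Not at hcon
    rw [Finset.sum_eq_zero fun τ _ => hcon τ] at hn1
    exact absurd hn1 (by norm_num)
  have hτ1 : n τ0 = 1 := by
    have := (g1 τ0).1
    omega
  have hoth : ∀ τ, τ ≠ τ0 → n τ = 0 := by
    intro τ hτ
    have := Finset.add_sum_erase Finset.univ n (Finset.mem_univ τ0)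
    rw [hn1, hτ1] at this
    have h0 : ∑ x ∈ Finset.univ.erase τ0, n x = 0 := by omega
    exact (Finset.sum_eq_zero_iff.1 h0) τ (Finset.mem_erase.2 ⟨hτ, Finset.mem_univ _⟩)
  have g3 : ∀ τ i, Msk (w τ i) ((2 ^ c - 1) * n τ) ∧ Msk (W' τ i) ((2 ^ c - 1) * N' τ) := by
    intro τ i
    have := h3 τ i
    rw [hN τ, hW τ i, show (2 ^ c - 1) * (n τ + 2 ^ (c + K) * N' τ) =
      (2 ^ c - 1) * n τ + 2 ^ (c + K) * ((2 ^ c - 1) * N' τ) by ring, Msk_cons (hwlt τ i)] at this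
    · exact this
    · have h5 := (g1 τ).1
      have h6 : (2 ^ c - 1) * n τ ≤ (2 ^ c - 1) * 1 := Nat.mul_le_mul_left _ h5
      omega
  have hw0 : ∀ τ, τ ≠ τ0 → ∀ i, w τ i = 0 := by
    intro τ hτ i
    have := (g3 τ i).1
    rw [hoth τ hτ, mul_zero] at this
    exact Msk_zero_right this
  have hwc : ∀ i, w τ0 i < 2 ^ c := by
    intro i
    have := (g3 τ0 i).1
    rw [hτ1, mul_one] at this
    exact Msk_mask.1 this
  have e1 : ∀ i, ∑ τ, (F.A τ i * W τ i + F.B τ i * N τ) = (F.A τ0 i * w τ0 i + F.B τ0 i) +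
      2 ^ (c + K) * ∑ τ, (F.A τ i * W' τ i + F.B τ i * N' τ) := by
    intro i
    rw [← sum_single (fun τ => F.A τ i) (fun τ => F.B τ i) (2 ^ (c + K)) τ0 n (fun τ => w τ i) N'
      (fun τ => W' τ i) hτ1 hoth (fun τ h => hw0 τ h i)]
    refine Finset.sum_congr rfl fun τ _ => ?_
    rw [hN τ, hW τ i]
  have e2 : ∀ i, ∑ τ, (F.A' τ i * W τ i + F.B' τ i * N τ) =
      (F.A' τ0 i * w τ0 i + F.B' τ0 i) +
      2 ^ (c + K) * ∑ τ, (F.A' τ i * W' τ i + F.B' τ i * N' τ) := by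
    intro i
    rw [← sum_single (fun τ => F.A' τ i) (fun τ => F.B' τ i) (2 ^ (c + K)) τ0 n (fun τ => w τ i) N'
      (fun τ => W' τ i) hτ1 hoth (fun τ h => hw0 τ h i)]
    refine Finset.sum_congr rfl fun τ _ => ?_
    rw [hN τ, hW τ i]
  have e3 : ∀ i, m i = F.A τ0 i * w τ0 i + F.B τ0 i ∧
      ∑ τ, (F.A τ i * W' τ i + F.B τ i * N' τ) = (F.A' τ0 i * w τ0 i + F.B' τ0 i) +
      2 ^ (c + K) * ∑ τ, (F.A' τ i * W' τ i + F.B' τ i * N' τ) := by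
    intro i
    have h5 := h4 i
    rw [e1 i, e2 i] at h5
    have h6 := coef_lt (hK.ab τ0 i) (hwc i)
    have h7 : m i = F.A τ0 i * w τ0 i + F.B τ0 i := by
      have := congrArg (· % 2 ^ (c + K)) h5
      simp only [Nat.add_mul_mod_self_left] at this
      rw [Nat.mod_eq_of_lt h6, Nat.mod_eq_of_lt (hm i)] at this
      exact this.symm
    refine ⟨h7, ?_⟩
    rw [h7] at h5
    exact Nat.eq_of_mul_eq_mul_left hQ (Nat.add_left_cancel h5)
  exact ⟨τ0, w τ0, N', W', fun i => (e3 i).1, fun i => coef_lt (hK.ab' τ0 i) (hwc i),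
    fun τ => (g1 τ).2, hN1, fun τ i => (g3 τ i).2, fun i => (e3 i).2⟩

omit [Fintype ι] in
theorem Aff.run_of_cond (F : Aff ρ ι) {K c : ℕ} (hK : F.Bd K) (T : ℕ) {m : ι → ℕ} {N : ρ → ℕ}
    {W : ρ → ι → ℕ} (hm : ∀ i, m i < 2 ^ (c + K)) (h : F.Cond K c T m N W) : F.Run T m := by
  induction T generalizing m N W with
  | zero =>
    obtain ⟨h1, h2, h3, h4⟩ := h
    intro i
    have hN : ∀ τ, N τ = 0 := fun τ => Msk_zero_right (h1 τ)
    have hW : ∀ τ, W τ i = 0 := fun τ => by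
      have := h3 τ i
      rw [hN τ, mul_zero] at this
      exact Msk_zero_right this
    have h5 := h4 i
    rw [Finset.sum_eq_zero fun τ _ => by rw [hN τ, hW τ]; simp] at h5
    omega
  | succ T ih =>
    obtain ⟨τ, w, N', W', h1, h2, h3⟩ := F.peel hK hm h
    exact ⟨_, ⟨τ, w, fun i => ⟨h1 i, rfl⟩⟩, ih h2 h3⟩

theorem Aff.cond_of_run (F : Aff ρ ι) (K : ℕ) (hK : F.Bd K) (T : ℕ) {m : ι → ℕ}
    (h : F.Run T m) : ∃ c0, ∀ c, c0 ≤ c → (∀ i, m i < 2 ^ (c + K)) ∧ ∃ N W, F.Cond K c T m N W := by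
  classical
  induction T generalizing m with
  | zero =>
    refine ⟨0, fun c _ => ⟨fun i => ?_, fun _ => 0, fun _ _ => 0, fun τ => Msk_zero_left _, ?_,
      fun τ i => Msk_zero_left _, fun i => ?_⟩⟩
    · rw [h i]
      exact Nat.two_pow_pos _
    · simp [rpu]
    · rw [h i]
      simp
  | succ T ih =>
    obtain ⟨m', ⟨τ0, w, hw⟩, hr⟩ := h
    obtain ⟨c0, hc0⟩ := ih hr
    obtain ⟨c1, hc1⟩ : ∃ c1, ∀ i, w i < 2 ^ c1 ∧ m i < 2 ^ c1 := by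
      refine ⟨∑ i, (w i + m i), fun i => ?_⟩
      have h1 : w i + m i ≤ ∑ i, (w i + m i) :=
        Finset.single_le_sum (f := fun i => w i + m i) (fun _ _ => Nat.zero_le _)
          (Finset.mem_univ i)
      have h2 := Nat.lt_two_pow_self (n := ∑ i, (w i + m i))
      omega
    refine ⟨max c0 c1, fun c hc => ?_⟩
    obtain ⟨hm', N', W', k1, k2, k3, k4⟩ := hc0 c (le_trans (le_max_left _ _) hc)
    have hcc : 2 ^ c1 ≤ 2 ^ c := Nat.pow_le_pow_right (by norm_num) (le_trans (le_max_right _ _) hc)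
    have hcQ : 2 ^ c ≤ 2 ^ (c + K) := Nat.pow_le_pow_right (by norm_num) (by omega)
    have hQ1 : 1 < 2 ^ (c + K) := Nat.one_lt_two_pow (by have := hK.pos; omega)
    have hc0' : 0 < 2 ^ c := Nat.two_pow_pos _
    have hwc : ∀ i, w i < 2 ^ c := fun i => lt_of_lt_of_le (hc1 i).1 hcc
    let n : ρ → ℕ := fun τ => if τ = τ0 then 1 else 0
    let w' : ρ → ι → ℕ := fun τ i => if τ = τ0 then w i else 0
    have hn0 : n τ0 = 1 := if_pos rfl
    have hn : ∀ τ, τ ≠ τ0 → n τ = 0 := fun τ h => if_neg h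
    have hw0 : ∀ i, w' τ0 i = w i := fun i => if_pos rfl
    have hwn : ∀ τ, τ ≠ τ0 → ∀ i, w' τ i = 0 := fun τ h i => if_neg h
    have hnle : ∀ τ, n τ ≤ 1 := fun τ => by
      show (if τ = τ0 then 1 else 0) ≤ 1
      split <;> omega
    refine ⟨fun i => lt_of_lt_of_le (hc1 i).2 (hcc.trans hcQ),
      fun τ => n τ + 2 ^ (c + K) * N' τ, fun τ i => w' τ i + 2 ^ (c + K) * W' τ i, ?_, ?_, ?_, ?_⟩
    · intro τ
      rw [rpu, Msk_cons (lt_of_le_of_lt (hnle τ) hQ1) hQ1]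
      exact ⟨Msk_one.2 (hnle τ), k1 τ⟩
    · rw [Finset.sum_add_distrib, ← Finset.mul_sum, k2, rpu]
      congr 1
      show ∑ τ, (if τ = τ0 then 1 else 0) = 1
      simp
    · intro τ i
      rw [show (2 ^ c - 1) * (n τ + 2 ^ (c + K) * N' τ) =
        (2 ^ c - 1) * n τ + 2 ^ (c + K) * ((2 ^ c - 1) * N' τ) by ring]
      have hw'lt : w' τ i < 2 ^ (c + K) := by
        show (if τ = τ0 then w i else 0) < _
        split
        · exact lt_of_lt_of_le (hwc i) hcQ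
        · exact Nat.two_pow_pos _
      have hlt2 : (2 ^ c - 1) * n τ < 2 ^ (c + K) := by
        have h6 : (2 ^ c - 1) * n τ ≤ (2 ^ c - 1) * 1 := Nat.mul_le_mul_left _ (hnle τ)
        omega
      rw [Msk_cons hw'lt hlt2]
      refine ⟨?_, k3 τ i⟩
      by_cases hτ : τ = τ0
      · subst hτ
        rw [hn0, mul_one, hw0]
        exact Msk_mask.2 (hwc i)
      · rw [hwn τ hτ]
        exact Msk_zero_left _
    · intro i
      have e1 := sum_single (fun τ => F.A τ i) (fun τ => F.B τ i) (2 ^ (c + K)) τ0 n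
        (fun τ => w' τ i) N' (fun τ => W' τ i) hn0 hn (fun τ h => hwn τ h i)
      have e2 := sum_single (fun τ => F.A' τ i) (fun τ => F.B' τ i) (2 ^ (c + K)) τ0 n
        (fun τ => w' τ i) N' (fun τ => W' τ i) hn0 hn (fun τ h => hwn τ h i)
      simp only [hw0] at e1 e2
      rw [e1, e2, k4 i, (hw i).1, (hw i).2]

/-- Arithmetization. -/
theorem Aff.run_iff (F : Aff ρ ι) {K : ℕ} (hK : F.Bd K) (m : ι → ℕ) :
    (∃ T, F.Run T m) ↔ ∃ c T N W, (∀ i, m i < 2 ^ (c + K)) ∧ F.Cond K c T m N W := by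
  constructor
  · rintro ⟨T, h⟩
    obtain ⟨c0, hc0⟩ := F.cond_of_run K hK T h
    obtain ⟨h1, N, W, h2⟩ := hc0 c0 le_rfl
    exact ⟨c0, T, N, W, h1, h2⟩
  · rintro ⟨c, T, N, W, h1, h2⟩
    exact ⟨T, F.run_of_cond hK T h1 h2⟩

theorem Aff.exists_bd (F : Aff ρ ι) : ∃ K, F.Bd K := by
  let C := Fintype.card ρ + ∑ τ, ∑ i, (F.A τ i + F.B τ i + F.A' τ i + F.B' τ i)
  have h1 : C + 1 < 2 ^ (C + 1) := Nat.lt_two_pow_self
  have h2 : ∀ τ i, F.A τ i + F.B τ i + F.A' τ i + F.B' τ i ≤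
      ∑ τ, ∑ i, (F.A τ i + F.B τ i + F.A' τ i + F.B' τ i) := by
    intro τ i
    refine le_trans (Finset.single_le_sum (f := fun i => F.A τ i + F.B τ i + F.A' τ i + F.B' τ i)
      (fun _ _ => Nat.zero_le _) (Finset.mem_univ i)) ?_
    exact Finset.single_le_sum (f := fun τ => ∑ i, (F.A τ i + F.B τ i + F.A' τ i + F.B' τ i))
      (fun _ _ => Nat.zero_le _) (Finset.mem_univ τ)
  refine ⟨C + 1, ⟨Nat.succ_pos _, ?_, fun τ i => ?_, fun τ i => ?_⟩⟩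
  · omega
  · have := h2 τ i
    omega
  · have := h2 τ i
    omega

end Pool.Agent.Helper55.OneRel
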