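import Pool.Agent.Helper55.OneRel.Gadget

set_option autoImplicit false

namespace Pool.Agent.Helper55.OneRel

/-! Systems of word equations for arithmetical terms. -/

/-- arithmetical terms -/
inductive Tm (γ : Type)
  | var (x : γ)
  | num (n : ℕ)
  | add (s t : Tm γ)
  | mul (s t : Tm γ)

variable {γ : Type}

/-- the value of a term -/
def Tm.eval (v : γ → ℕ) : Tm γ → ℕ
  | .var x => v x
  | .num n => n
  | .add s t => s.eval v + t.eval v
  | .mul s t => s.eval v * t.eval v

/-- words with variables -/
abbrev SW (V : Type) : Type := List (Fin 5 ⊕ V)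

/-- the equations of the gadget of a term -/
def gad (t : Tm γ) : List (SW (Tm γ × ℕ) × SW (Tm γ × ℕ)) :=
  [([.inl 3, .inr (t, 2), .inl 3, .inr (t, 0)], [.inl 3, .inr (t, 0), .inl 3, .inr (t, 2)]),
   ([.inl 4, .inr (t, 3), .inl 4, .inr (t, 0), .inl 2],
    [.inl 4, .inr (t, 0), .inl 2, .inl 4, .inr (t, 3)]),
   ([.inr (t, 4), .inr (t, 2)], []),
   ([.inr (t, 4), .inr (t, 3)], []),
   ([.inr (t, 5), .inl 3, .inr (t, 2)], []),
   ([.inr (t, 5), .inr (t, 1)], []),
   ([.inr (t, 1), .inl 2], [.inl 2, .inr (t, 1)])]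

/-- the equations of a term -/
def sys : Tm γ → List (SW (Tm γ × ℕ) × SW (Tm γ × ℕ))
  | .var x => [([.inr (.var x, 0), .inl 2], [.inl 2, .inr (.var x, 0)])]
  | .num n => [([.inr (.num n, 0)], List.replicate n (.inl 2))]
  | .add s t => ([.inr (.add s t, 0)], [.inr (s, 0), .inr (t, 0)]) :: (sys s ++ sys t)
  | .mul s t => ([.inr (.add s t, 0)], [.inr (s, 0), .inr (t, 0)]) ::
      ([.inr (s, 1), .inr (t, 1), .inr (.mul s t, 0), .inr (.mul s t, 0)],
        [.inr (.add s t, 1), .inl 2, .inl 2]) ::
      ([.inr (.mul s t, 0), .inl 2], [.inl 2, .inr (.mul s t, 0)]) ::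
      (sys s ++ (sys t ++ (gad s ++ (gad t ++ gad (.add s t)))))

/-- substitution of words -/
def sub {V : Type} (Y : V → Wd) (e : SW V) : Wd := e.flatMap (Sum.elim (fun c => [c]) Y)

/-- evaluation in a monoid -/
def evS {V H : Type} [Monoid H] (d : Fin 5 → H) (σ : V → H) (e : SW V) : H :=
  (e.map (Sum.elim d σ)).prod

theorem sub_nil {V : Type} (Y : V → Wd) : sub Y [] = [] := rfl

theorem sub_inl {V : Type} (Y : V → Wd) (c : Fin 5) (e : SW V) :
    sub Y (.inl c :: e) = c :: sub Y e := rfl

theorem sub_inr {V : Type} (Y : V → Wd) (x : V) (e : SW V) :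
    sub Y (.inr x :: e) = Y x ++ sub Y e := rfl

theorem sub_replicate {V : Type} (Y : V → Wd) (n : ℕ) (c : Fin 5) :
    sub Y (List.replicate n (.inl c)) = List.replicate n c := by
  induction n with
  | zero => rfl
  | succ n ih => rw [List.replicate_succ, sub_inl, ih]; rfl

theorem evS_ev {V H : Type} [Monoid H] (d : Fin 5 → H) (Y : V → Wd) (e : SW V) :
    evS d (fun x => ev d (Y x)) e = ev d (sub Y e) := by
  induction e with
  | nil => simp [evS, ev, sub]
  | cons x e ih =>
    have h1 : evS d (fun x => ev d (Y x)) (x :: e) =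
        Sum.elim d (fun x => ev d (Y x)) x * evS d (fun x => ev d (Y x)) e := by
      simp [evS]
    rw [h1, ih]
    cases x with
    | inl c => rw [sub_inl, ev_cons]; rfl
    | inr x => rw [sub_inr, ev_append]; rfl

/-- the solution in words -/
def Yv (v : γ → ℕ) (x : Tm γ × ℕ) : Wd :=
  match x.2 with
  | 0 => List.replicate (x.1.eval v) 2
  | 1 => List.replicate ((x.1.eval v + 1) * (x.1.eval v + 2)) 2
  | 2 => gz1 (x.1.eval v)
  | 3 => gz2 (x.1.eval v)
  | 4 => gx (x.1.eval v)
  | _ => gy (x.1.eval v)

theorem rep_snoc (n : ℕ) (c : Fin 5) : List.replicate n c ++ [c] = List.replicate (n + 1) c :=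
  (List.replicate_succ').symm

section complete

variable {H : Type} [Monoid H] {d : Fin 5 → H}

theorem gad_complete (hd : ∀ x y, cp x y = true → d x * d y = 1) (v : γ → ℕ) (t : Tm γ)
    (e : SW (Tm γ × ℕ) × SW (Tm γ × ℕ)) (he : e ∈ gad t) :
    ev d (sub (Yv v) e.1) = ev d (sub (Yv v) e.2) := by
  obtain ⟨e1, e2, e3, e4, e6, e7, e8⟩ := gadget_complete hd (t.eval v)
  have h0 : ev d [] = 1 := by simp [ev]
  simp only [gad, List.mem_cons, List.not_mem_nil, or_false] at he
  rcases he with rfl | rfl | rfl | rfl | rfl | rfl | rfl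
  · simpa [sub_inl, sub_inr, sub_nil, Yv] using e1
  · have e2' := e2
    rw [← rep_snoc] at e2'
    simpa [sub_inl, sub_inr, sub_nil, Yv] using e2'
  · simpa [sub_inl, sub_inr, sub_nil, Yv, h0] using e3
  · simpa [sub_inl, sub_inr, sub_nil, Yv, h0] using e4
  · simpa [sub_inl, sub_inr, sub_nil, Yv, h0] using e6
  · simpa [sub_inl, sub_inr, sub_nil, Yv, h0] using e7
  · simpa [sub_inl, sub_inr, sub_nil, Yv] using e8

theorem rep_comm (n : ℕ) (c : Fin 5) : List.replicate n c ++ [c] = [c] ++ List.replicate n c := by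
  rw [rep_snoc]
  rfl

theorem sys_complete (hd : ∀ x y, cp x y = true → d x * d y = 1) (v : γ → ℕ) (t : Tm γ)
    (e : SW (Tm γ × ℕ) × SW (Tm γ × ℕ)) (he : e ∈ sys t) :
    ev d (sub (Yv v) e.1) = ev d (sub (Yv v) e.2) := by
  induction t with
  | var x =>
    simp only [sys, List.mem_singleton] at he
    subst he
    simp only [sub_inl, sub_inr, sub_nil, Yv, List.append_nil]
    rw [rep_comm]
    rfl
  | num n =>
    simp only [sys, List.mem_singleton] at he
    subst he
    simp only [sub_inr, sub_nil, Yv, List.append_nil, sub_replicate, Tm.eval]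
  | add s t ih1 ih2 =>
    simp only [sys, List.mem_cons, List.mem_append] at he
    rcases he with rfl | he | he
    · simp only [sub_inr, sub_nil, Yv, List.append_nil, Tm.eval]
      rw [List.replicate_add]
    · exact ih1 he
    · exact ih2 he
  | mul s t ih1 ih2 =>
    simp only [sys, List.mem_cons, List.mem_append] at he
    rcases he with rfl | rfl | rfl | he | he | he | he | he
    · simp only [sub_inr, sub_nil, Yv, List.append_nil, Tm.eval]
      rw [List.replicate_add]
    · simp only [sub_inr, sub_inl, sub_nil, Yv, List.append_nil, Tm.eval]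
      have h1 : ([2, 2] : Wd) = List.replicate 2 2 := rfl
      rw [h1, ← List.replicate_add, ← List.replicate_add, ← List.replicate_add,
        ← List.replicate_add]
      congr 2
      ring
    · simp only [sub_inl, sub_inr, sub_nil, Yv, List.append_nil]
      rw [rep_comm]
      rfl
    · exact ih1 he
    · exact ih2 he
    · exact gad_complete hd v _ e he
    · exact gad_complete hd v _ e he
    · exact gad_complete hd v _ e he

end complete

section sound

theorem gad_sound {Y : Tm γ × ℕ → Wd} (hY : ∀ x, Nm (Y x)) (t : Tm γ) {n : ℕ}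
    (h0 : Y (t, 0) = List.replicate n 2)
    (h : ∀ e ∈ gad t, nf (sub Y e.1) = nf (sub Y e.2)) :
    Y (t, 1) = List.replicate ((n + 1) * (n + 2)) 2 := by
  simp only [gad, List.mem_cons, List.not_mem_nil, or_false, forall_eq_or_imp, forall_eq,
    sub_inl, sub_inr, sub_nil, List.append_nil, h0] at h
  obtain ⟨e1, e2, e3, e4, e6, e7, e8⟩ := h
  have e2' := e2
  rw [rep_snoc, show ∀ l : Wd, List.replicate n (2 : Fin 5) ++ 2 :: l =
    (List.replicate n (2 : Fin 5) ++ [2]) ++ l from fun l => by simp, rep_snoc] at e2'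
  exact gadget_sound (hY _) (hY _) (hY _) (hY _) (hY _) e1 e2' e3 e4 e6 e7 e8

theorem nf_rep (n : ℕ) : nf (List.replicate n 2) = List.replicate n 2 := by
  have h : LW (List.replicate n 2) := by
    intro x hx
    rw [List.eq_of_mem_replicate hx]
    decide
  have := act_of_L h []
  rwa [List.append_nil] at this

theorem comm_two {y : Wd} (hy : Nm y) (h : nf (y ++ [2]) = nf (2 :: y)) :
    y = List.replicate y.length 2 := by
  apply eq_replicate
  apply comm_L (u := [2]) (by intro x hx; simp at hx; subst hx; decide)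
  rw [show (2 :: y : Wd) = [2] ++ y from rfl, nf_append, nf_append, nf_of_Nm hy] at h
  exact h

theorem sys_sound {Y : Tm γ × ℕ → Wd} (hY : ∀ x, Nm (Y x)) (t : Tm γ)
    (h : ∀ e ∈ sys t, nf (sub Y e.1) = nf (sub Y e.2)) :
    Y (t, 0) = List.replicate (t.eval fun x => (Y (.var x, 0)).length) 2 := by
  induction t with
  | var x =>
    have h1 := h _ (List.mem_singleton.2 rfl)
    simp only [sub_inl, sub_inr, sub_nil, List.append_nil] at h1
    exact comm_two (hY _) h1
  | num n =>
    have h1 := h _ (List.mem_singleton.2 rfl)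
    simp only [sub_inr, sub_nil, List.append_nil, sub_replicate, nf_rep] at h1
    rw [nf_of_Nm (hY _)] at h1
    exact h1
  | add s t ih1 ih2 =>
    simp only [sys, List.mem_cons, List.mem_append] at h
    have h1 := h _ (Or.inl rfl)
    have i1 := ih1 fun e he => h e (Or.inr (Or.inl he))
    have i2 := ih2 fun e he => h e (Or.inr (Or.inr he))
    simp only [sub_inr, sub_nil, List.append_nil] at h1
    rw [i1, i2, ← List.replicate_add, nf_rep, nf_of_Nm (hY _)] at h1
    exact h1
  | mul s t ih1 ih2 =>
    simp only [sys, List.mem_cons, List.mem_append] at h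
    have i1 := ih1 fun e he => h e (Or.inr (Or.inr (Or.inr (Or.inl he))))
    have i2 := ih2 fun e he => h e (Or.inr (Or.inr (Or.inr (Or.inr (Or.inl he)))))
    have h1 := h _ (Or.inl rfl)
    simp only [sub_inr, sub_nil, List.append_nil] at h1
    rw [i1, i2, ← List.replicate_add, nf_rep, nf_of_Nm (hY _)] at h1
    have g1 := gad_sound hY s i1 fun e he =>
      h e (Or.inr (Or.inr (Or.inr (Or.inr (Or.inr (Or.inl he))))))
    have g2 := gad_sound hY t i2 fun e he =>
      h e (Or.inr (Or.inr (Or.inr (Or.inr (Or.inr (Or.inr (Or.inl he)))))))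
    have g3 := gad_sound hY _ h1 fun e he =>
      h e (Or.inr (Or.inr (Or.inr (Or.inr (Or.inr (Or.inr (Or.inr he)))))))
    have h3 := h _ (Or.inr (Or.inr (Or.inl rfl)))
    simp only [sub_inl, sub_inr, sub_nil, List.append_nil] at h3
    have h4 := comm_two (hY _) h3
    have h2 := h _ (Or.inr (Or.inl rfl))
    simp only [sub_inl, sub_inr, sub_nil, List.append_nil] at h2
    have h5 : ([2, 2] : Wd) = List.replicate 2 2 := rfl
    rw [h4, g1, g2, g3, h5, ← List.replicate_add, ← List.replicate_add, ← List.replicate_add,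
      ← List.replicate_add, nf_rep, nf_rep] at h2
    have h6 := congrArg List.length h2
    simp only [List.length_replicate] at h6
    rw [h4]
    congr 1
    show _ = Tm.eval _ s * Tm.eval _ t
    have h7 : 2 * (Y (s.mul t, 0)).length = 2 *
        ((Tm.eval (fun x => (Y (.var x, 0)).length) s) *
        (Tm.eval (fun x => (Y (.var x, 0)).length) t)) := by
      nlinarith [h6]
    omega

end sound

/-- the system for the equation `t1 = t2` with `x0 = n` -/
def bigSys (t1 t2 : Tm γ) (x0 : γ) (n : ℕ) : List (SW (Tm γ × ℕ) × SW (Tm γ × ℕ)) :=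
  sys t1 ++ (sys t2 ++ [([.inr (t1, 0)], [.inr (t2, 0)])]) ++
    [([.inr (.var x0, 0)], List.replicate n (.inl 2))]

/-- the equivalence, over a monoid with decorated letters -/
theorem bigSys_iff {H : Type} [Monoid H] (d : Fin 5 → H)
    (hd : ∀ x y, cp x y = true → d x * d y = 1) (π : H → Wd → Wd) (hone : π 1 = id)
    (hmul : ∀ x y, π (x * y) = π x ∘ π y) (hpd : ∀ c, π (d c) = push c)
    (hrep : ∀ h, ∃ u, π h = act u) (t1 t2 : Tm γ) (x0 : γ) (n : ℕ) :
    (∃ σ : Tm γ × ℕ → H, ∀ e ∈ bigSys t1 t2 x0 n, evS d σ e.1 = evS d σ e.2) ↔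
      ∃ v : γ → ℕ, v x0 = n ∧ t1.eval v = t2.eval v := by
  constructor
  · rintro ⟨σ, hσ⟩
    choose u hu using hrep
    let Y : Tm γ × ℕ → Wd := fun x => nf (u (σ x))
    have hY : ∀ x, Nm (Y x) := fun x => Nm_nf _
    have hev : ∀ e : SW (Tm γ × ℕ), π (evS d σ e) = act (sub Y e) := by
      intro e
      induction e with
      | nil =>
        have : evS d σ [] = 1 := by simp [evS]
        rw [this, hone]
        rfl
      | cons x e ih =>
        have h1 : evS d σ (x :: e) = Sum.elim d σ x * evS d σ e := by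
          simp [evS]
        rw [h1, hmul, ih]
        cases x with
        | inl c =>
          rw [sub_inl]
          funext y
          show (π (d c)) (act (sub Y e) y) = _
          rw [hpd]
          rfl
        | inr x =>
          rw [sub_inr]
          funext y
          show (π (σ x)) (act (sub Y e) y) = _
          rw [act_append, hu, act_nf]
    have key : ∀ e ∈ bigSys t1 t2 x0 n, nf (sub Y e.1) = nf (sub Y e.2) := by
      intro e he
      unfold nf
      rw [← hev, ← hev, hσ e he]
    simp only [bigSys, List.mem_append, List.mem_singleton] at key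
    have k1 := sys_sound hY t1 fun e he => key e (Or.inl (Or.inl he))
    have k2 := sys_sound hY t2 fun e he => key e (Or.inl (Or.inr (Or.inl he)))
    have k3 := key _ (Or.inl (Or.inr (Or.inr rfl)))
    have k4 := key _ (Or.inr rfl)
    simp only [sub_inr, sub_nil, List.append_nil, sub_replicate] at k3 k4
    rw [k1, k2, nf_rep, nf_rep] at k3
    rw [nf_rep, nf_of_Nm (hY _)] at k4
    refine ⟨fun x => (Y (.var x, 0)).length, ?_, ?_⟩
    · simp only [k4, List.length_replicate]
    · have := congrArg List.length k3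
      simpa only [List.length_replicate] using this
  · rintro ⟨v, h1, h2⟩
    refine ⟨fun x => ev d (Yv v x), fun e he => ?_⟩
    rw [evS_ev, evS_ev]
    simp only [bigSys, List.mem_append, List.mem_singleton] at he
    rcases he with (he | he | rfl) | rfl
    · exact sys_complete hd v t1 e he
    · exact sys_complete hd v t2 e he
    · simp only [sub_inr, sub_nil, List.append_nil, Yv, h2]
    · simp only [sub_inr, sub_nil, List.append_nil, Yv, sub_replicate, Tm.eval, h1]

end Pool.Agent.Helper55.OneRel
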