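import Pool.Agent.Helper55.OneRel.Arith
import Pool.Agent.Helper55.OneRel.Sys

set_option autoImplicit false

namespace Pool.Agent.Helper55.OneRel

open Dioph

/-! The arithmetical condition is Diophantine. -/

section closure

variable {α : Type}

theorem dioph_forall {κ : Type} [Fintype κ] {S : κ → Set (α → ℕ)} (h : ∀ i, Dioph (S i)) :
    Dioph {v | ∀ i, v ∈ S i} := by
  have h1 := DiophList.forall ((Finset.univ : Finset κ).toList.map S) (by
    rw [List.forall_iff_forall_mem]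
    intro s hs
    rw [List.mem_map] at hs
    obtain ⟨i, _, rfl⟩ := hs
    exact h i)
  refine Dioph.ext h1 fun v => ?_
  show List.Forall _ _ ↔ _
  rw [List.forall_iff_forall_mem]
  constructor
  · intro h2 i
    exact h2 (S i) (List.mem_map.2 ⟨i, Finset.mem_toList.2 (Finset.mem_univ i), rfl⟩)
  · intro h2 s hs
    rw [List.mem_map] at hs
    obtain ⟨i, _, rfl⟩ := hs
    exact h2 i

theorem sum_dioph {κ : Type} (s : Finset κ) {f : κ → (α → ℕ) → ℕ} (h : ∀ i, DiophFn (f i)) :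
    DiophFn fun v => ∑ i ∈ s, f i v := by
  classical
  induction s using Finset.induction_on with
  | empty =>
    simp only [Finset.sum_empty]
    exact const_dioph 0
  | insert a s ha ih =>
    simp only [Finset.sum_insert ha]
    exact add_dioph (h a) ih

theorem rpu_eq (Q T : ℕ) (hQ : 2 ≤ Q) : rpu Q T = (Q ^ T - 1) / (Q - 1) := by
  have h : (Q - 1) * rpu Q T + 1 = Q ^ T := by
    induction T with
    | zero => simp [rpu]
    | succ T ih =>
      rw [pow_succ, ← ih, rpu]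
      obtain ⟨q, rfl⟩ : ∃ q, Q = q + 1 := ⟨Q - 1, by omega⟩
      simp only [Nat.add_sub_cancel]
      ring
  rw [← h, Nat.add_sub_cancel, Nat.mul_div_cancel_left _ (by omega)]

theorem rpu_dioph {f g : (α → ℕ) → ℕ} (df : DiophFn f) (dg : DiophFn g) (h : ∀ v, 2 ≤ f v) :
    DiophFn fun v => rpu (f v) (g v) := by
  have h1 : (fun v => rpu (f v) (g v)) = fun v => ((f v) ^ (g v) - 1) / (f v - 1) := by
    funext v
    exact rpu_eq _ _ (h v)
  rw [h1]
  exact div_dioph (sub_dioph (pow_dioph df dg) (const_dioph 1)) (sub_dioph df (const_dioph 1))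

end closure

variable {ρ ι : Type} [Fintype ρ] [Fintype ι]

/-- the variables of the arithmetical condition -/
abbrev CV (ρ ι : Type) : Type := Bool ⊕ (ρ ⊕ ρ × ι)

theorem cond_dioph [DecidableEq ι] (F : Aff ρ ι) {K : ℕ} (hK : F.Bd K) (m0 : ι → ℕ) (i0 : ι) :
    Dioph {v : Unit → ℕ | ∃ c T N W,
      (∀ i, (if i = i0 then v () else m0 i) < 2 ^ (c + K)) ∧
      F.Cond K c T (fun i => if i = i0 then v () else m0 i) N W} := by
  let X : (Unit ⊕ CV ρ ι → ℕ) → ℕ := fun v => v (Sum.inl ())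
  let c : (Unit ⊕ CV ρ ι → ℕ) → ℕ := fun v => v (Sum.inr (Sum.inl true))
  let T : (Unit ⊕ CV ρ ι → ℕ) → ℕ := fun v => v (Sum.inr (Sum.inl false))
  let N : ρ → (Unit ⊕ CV ρ ι → ℕ) → ℕ := fun τ v => v (Sum.inr (Sum.inr (Sum.inl τ)))
  let W : ρ → ι → (Unit ⊕ CV ρ ι → ℕ) → ℕ := fun τ i v => v (Sum.inr (Sum.inr (Sum.inr (τ, i))))
  let m : ι → (Unit ⊕ CV ρ ι → ℕ) → ℕ := fun i v => if i = i0 then X v else m0 i
  have dX : DiophFn X := proj_dioph _
  have dc : DiophFn c := proj_dioph _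
  have dT : DiophFn T := proj_dioph _
  have dN : ∀ τ, DiophFn (N τ) := fun τ => proj_dioph _
  have dW : ∀ τ i, DiophFn (W τ i) := fun τ i => proj_dioph _
  have dm : ∀ i, DiophFn (m i) := by
    intro i
    by_cases h : i = i0
    · have : m i = X := by
        funext v
        exact if_pos h
      rw [this]
      exact dX
    · have : m i = fun _ => m0 i := by
        funext v
        exact if_neg h
      rw [this]
      exact const_dioph (m0 i)
  have dQ : DiophFn fun v => 2 ^ (c v + K) :=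
    pow_dioph (const_dioph 2) (add_dioph dc (const_dioph K))
  have hQ2 : ∀ v, 2 ≤ 2 ^ (c v + K) := by
    intro v
    have h1 : 2 ^ 1 ≤ 2 ^ (c v + K) := Nat.pow_le_pow_right (by norm_num)
      (by have := hK.pos; omega)
    simpa using h1
  have dR : DiophFn fun v => rpu (2 ^ (c v + K)) (T v) := rpu_dioph dQ dT hQ2
  have k0 : Dioph {v | ∀ i, v ∈ {v | m i v < 2 ^ (c v + K)}} :=
    dioph_forall fun i => lt_dioph (dm i) dQ
  have k1 : Dioph {v | ∀ τ, v ∈ {v | Msk (N τ v) (rpu (2 ^ (c v + K)) (T v))}} :=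
    dioph_forall fun τ => msk_dioph (dN τ) dR
  have k2 : Dioph {v | ∑ τ, N τ v = rpu (2 ^ (c v + K)) (T v)} :=
    eq_dioph (sum_dioph _ dN) dR
  have k3 : Dioph {v | ∀ x : ρ × ι, v ∈ {v | Msk (W x.1 x.2 v) ((2 ^ (c v) - 1) * N x.1 v)}} :=
    dioph_forall fun x => msk_dioph (dW x.1 x.2) (mul_dioph (sub_dioph
      (pow_dioph (const_dioph 2) dc) (const_dioph 1)) (dN x.1))
  have k4 : Dioph {v | ∀ i, v ∈ {v | ∑ τ, (F.A τ i * W τ i v + F.B τ i * N τ v) =
      m i v + 2 ^ (c v + K) * ∑ τ, (F.A' τ i * W τ i v + F.B' τ i * N τ v)}} :=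
    dioph_forall fun i => eq_dioph
      (sum_dioph _ fun τ => add_dioph (mul_dioph (const_dioph _) (dW τ i))
        (mul_dioph (const_dioph _) (dN τ)))
      (add_dioph (dm i) (mul_dioph dQ (sum_dioph _ fun τ =>
        add_dioph (mul_dioph (const_dioph _) (dW τ i)) (mul_dioph (const_dioph _) (dN τ)))))
  have key := ex_dioph (((k0.inter k1).inter k2).inter (k3.inter k4))
  refine Dioph.ext key fun v => ?_
  constructor
  · rintro ⟨x, ⟨⟨h0, h1⟩, h2⟩, h3, h4⟩
    exact ⟨_, _, fun τ => x (Sum.inr (Sum.inl τ)), fun τ i => x (Sum.inr (Sum.inr (τ, i))),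
      h0, h1, h2, fun τ i => h3 (τ, i), h4⟩
  · rintro ⟨c', T', N', W', h0, h1, h2, h3, h4⟩
    exact ⟨Sum.elim (fun z => if z = true then c' else T')
      (Sum.elim N' (fun x => W' x.1 x.2)), ⟨⟨h0, h1⟩, h2⟩, fun x => h3 x.1 x.2, h4⟩

/-- polynomials as differences of terms -/
theorem exists_tm {γ : Type} {f : (γ → ℕ) → ℤ} (h : IsPoly f) :
    ∃ s t : Tm γ, ∀ v, f v = (s.eval v : ℤ) - t.eval v := by
  induction h with
  | proj i => exact ⟨.var i, .num 0, fun v => by simp [Tm.eval]⟩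
  | const n =>
    exact ⟨.num n.toNat, .num (-n).toNat, fun v => by
      simp only [Tm.eval]
      omega⟩
  | sub _ _ ih1 ih2 =>
    obtain ⟨s1, t1, h1⟩ := ih1
    obtain ⟨s2, t2, h2⟩ := ih2
    exact ⟨.add s1 t2, .add s2 t1, fun v => by
      beta_reduce
      rw [h1, h2]
      simp only [Tm.eval]
      push_cast
      ring⟩
  | mul _ _ ih1 ih2 =>
    obtain ⟨s1, t1, h1⟩ := ih1
    obtain ⟨s2, t2, h2⟩ := ih2
    exact ⟨.add (.mul s1 s2) (.mul t1 t2), .add (.mul s1 t2) (.mul t1 s2), fun v => by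
      beta_reduce
      rw [h1, h2]
      simp only [Tm.eval]
      push_cast
      ring⟩

/-- Diophantine sets of numbers by terms -/
theorem exists_terms {S : Set (Unit → ℕ)} (h : Dioph S) :
    ∃ (γ : Type) (x0 : γ) (s t : Tm γ), ∀ x : ℕ, (fun _ => x) ∈ S ↔
      ∃ v : γ → ℕ, v x0 = x ∧ s.eval v = t.eval v := by
  obtain ⟨β, p, hp⟩ := h
  obtain ⟨s, t, hst⟩ := exists_tm p.isPoly
  refine ⟨Unit ⊕ β, Sum.inl (), s, t, fun x => ?_⟩
  rw [hp]
  constructor
  · rintro ⟨y, hy⟩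
    refine ⟨Sum.elim (fun _ => x) y, rfl, ?_⟩
    have := hst (Sum.elim (fun _ => x) y)
    have h2 : (p : (Unit ⊕ β → ℕ) → ℤ) (Sum.elim (fun _ => x) y) = 0 := hy
    omega
  · rintro ⟨v, hv, h2⟩
    refine ⟨v ∘ Sum.inr, ?_⟩
    have h3 : Sum.elim (fun _ => x) (v ∘ Sum.inr) = v := by
      funext z
      cases z with
      | inl z => exact hv.symm
      | inr z => rfl
    rw [h3]
    have := hst v
    omega

end Pool.Agent.Helper55.OneRel
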