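import Pool.Agent.Helper55.OneRel.Sys

set_option autoImplicit false

namespace Pool.Agent.Helper55.OneRel

/-! The one-relator monoid. -/

/-- the relator: the Zimin word `Z_4` in the pieces `aα, as, bs, bβ` -/
def zw : Wd :=
  [0, 3, 0, 2, 0, 3, 1, 2, 0, 3, 0, 2, 0, 3, 1, 4, 0, 3, 0, 2, 0, 3, 1, 2, 0, 3, 0, 2, 0, 3]

/-- the relation -/
abbrev rel (a b : FreeMonoid (Fin 5)) : Prop := a = (FreeMonoid.ofList zw) ^ 2 ∧ b = 1

/-- the monoid `⟨A ∣ w ^ 2 = 1⟩` -/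
abbrev Mo : Type := (conGen rel).Quotient

/-- the letters -/
def lt (c : Fin 5) : Mo := ((FreeMonoid.of c : FreeMonoid (Fin 5)) : Mo)

theorem isUnit_of_mul_mul {M : Type} [Monoid M] {z g : M} (h : IsUnit (z * g * z)) :
    IsUnit z ∧ IsUnit g := by
  obtain ⟨u, hu⟩ := h
  have h1 : z * (g * z * ↑u⁻¹) = 1 := by
    rw [← mul_assoc, ← mul_assoc, ← hu, Units.mul_inv]
  have h2 : (↑u⁻¹ * z * g) * z = 1 := by
    rw [mul_assoc, mul_assoc, ← mul_assoc z, ← hu, Units.inv_mul]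
  have hz : IsUnit z := by
    have h3 : g * z * ↑u⁻¹ = ↑u⁻¹ * z * g := by
      calc g * z * ↑u⁻¹ = (↑u⁻¹ * z * g * z) * (g * z * ↑u⁻¹) := by rw [h2, one_mul]
        _ = (↑u⁻¹ * z * g) * (z * (g * z * ↑u⁻¹)) := by simp only [mul_assoc]
        _ = ↑u⁻¹ * z * g := by rw [h1, mul_one]
    exact ⟨⟨z, g * z * ↑u⁻¹, h1, by rw [h3]; exact h2⟩, rfl⟩
  refine ⟨hz, ?_⟩
  obtain ⟨v, rfl⟩ := hz
  have h4 : g = ↑v⁻¹ * (↑v * g * ↑v) * ↑v⁻¹ := by
    rw [mul_assoc (v : M), Units.inv_mul_cancel_left, mul_assoc, Units.mul_inv, mul_one]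
  rw [h4, ← hu]
  exact ((v⁻¹).isUnit.mul u.isUnit).mul (v⁻¹).isUnit

theorem coe_ofList (u : Wd) : ((FreeMonoid.ofList u : FreeMonoid (Fin 5)) : Mo) =
    (u.map lt).prod := by
  induction u with
  | nil => rfl
  | cons x u ih =>
    rw [FreeMonoid.ofList_cons, Con.coe_mul, ih]
    simp [lt]

theorem zw_sq : (zw.map lt).prod * (zw.map lt).prod = 1 := by
  rw [← coe_ofList, ← Con.coe_mul, ← pow_two]
  exact (Con.eq _).2 (ConGen.Rel.of _ _ ⟨rfl, rfl⟩)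

theorem isUnit_zw : IsUnit (zw.map lt).prod := ⟨⟨_, _, zw_sq, zw_sq⟩, rfl⟩

theorem units_pieces : IsUnit (lt 0 * lt 3) ∧ IsUnit (lt 0 * lt 2) ∧ IsUnit (lt 1 * lt 2) ∧
    IsUnit (lt 1 * lt 4) := by
  have h4 := isUnit_zw
  have e4 : (zw.map lt).prod =
      (([0, 3, 0, 2, 0, 3, 1, 2, 0, 3, 0, 2, 0, 3] : Wd).map lt).prod * (lt 1 * lt 4) *
      (([0, 3, 0, 2, 0, 3, 1, 2, 0, 3, 0, 2, 0, 3] : Wd).map lt).prod := by
    simp [zw, mul_assoc]
  rw [e4] at h4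
  obtain ⟨h3, k4⟩ := isUnit_of_mul_mul h4
  have e3 : (([0, 3, 0, 2, 0, 3, 1, 2, 0, 3, 0, 2, 0, 3] : Wd).map lt).prod =
      (([0, 3, 0, 2, 0, 3] : Wd).map lt).prod * (lt 1 * lt 2) *
      (([0, 3, 0, 2, 0, 3] : Wd).map lt).prod := by
    simp [mul_assoc]
  rw [e3] at h3
  obtain ⟨h2, k3⟩ := isUnit_of_mul_mul h3
  have e2 : (([0, 3, 0, 2, 0, 3] : Wd).map lt).prod =
      (lt 0 * lt 3) * (lt 0 * lt 2) * (lt 0 * lt 3) := by
    simp [mul_assoc]
  rw [e2] at h2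
  obtain ⟨h1, k2⟩ := isUnit_of_mul_mul h2
  exact ⟨h1, k2, k3, k4⟩

/-- the action on words, on the free monoid -/
def piF : FreeMonoid (Fin 5) →* Function.End Wd :=
  FreeMonoid.lift (fun c => (push c : Function.End Wd))

theorem piF_ofList (u : Wd) : piF (FreeMonoid.ofList u) = act u := by
  induction u with
  | nil => exact map_one piF
  | cons x u ih =>
    rw [FreeMonoid.ofList_cons, map_mul, ih]
    unfold piF
    rw [FreeMonoid.lift_eval_of]
    rfl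

theorem act_zw (v : Wd) : act zw v = v := by
  have h1 : ∀ v, push 0 (push 3 v) = v := fun v => push_push rfl v
  have h2 : ∀ v, push 0 (push 2 v) = v := fun v => push_push rfl v
  have h3 : ∀ v, push 1 (push 2 v) = v := fun v => push_push rfl v
  have h4 : ∀ v, push 1 (push 4 v) = v := fun v => push_push rfl v
  simp only [zw, act_cons, act_nil, h1, h2, h3, h4]

/-- the action on words -/
def piM : Mo →* Function.End Wd :=
  Con.lift _ piF (by
    rw [Con.conGen_le]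
    rintro a b ⟨rfl, rfl⟩
    show piF _ = piF _
    have h : piF (FreeMonoid.ofList zw) = 1 := by
      rw [piF_ofList]
      funext v
      exact act_zw v
    rw [map_pow, map_one, h, one_pow])

theorem piM_lt (c : Fin 5) : piM (lt c) = push c := by
  unfold piM lt
  rw [Con.lift_coe]
  unfold piF
  rw [FreeMonoid.lift_eval_of]

theorem exists_word (h : Mo) : ∃ u : Wd, (u.map lt).prod = h := by
  induction h using Con.induction_on with
  | H x =>
    refine ⟨FreeMonoid.toList x, ?_⟩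
    rw [← coe_ofList, FreeMonoid.ofList_toList]

theorem piM_word (u : Wd) : piM (u.map lt).prod = act u := by
  rw [← coe_ofList, ← piF_ofList]
  unfold piM
  rw [Con.lift_coe]

theorem pi_unit {x y : Mo} (h : x * y = 1) (h1 : piM y = 1) : piM x = 1 := by
  have := congrArg piM h
  rw [map_mul, h1, mul_one, map_one] at this
  exact this

/-- the decorated letters -/
theorem exists_decorated : ∃ d : Fin 5 → Mo, (∀ x y, cp x y = true → d x * d y = 1) ∧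
    ∀ c, piM (d c) = push c := by
  obtain ⟨⟨u1, hu1⟩, ⟨u2, hu2⟩, ⟨u3, hu3⟩, ⟨u4, hu4⟩⟩ := units_pieces
  have p1 : piM (u1 : Mo) = 1 := by
    rw [hu1, map_mul, piM_lt, piM_lt]
    funext v
    exact push_push rfl v
  have p2 : piM (u2 : Mo) = 1 := by
    rw [hu2, map_mul, piM_lt, piM_lt]
    funext v
    exact push_push rfl v
  have p3 : piM (u3 : Mo) = 1 := by
    rw [hu3, map_mul, piM_lt, piM_lt]
    funext v
    exact push_push rfl v
  have p4 : piM (u4 : Mo) = 1 := by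
    rw [hu4, map_mul, piM_lt, piM_lt]
    funext v
    exact push_push rfl v
  have i1 := pi_unit u1.inv_mul p1
  have i2 := pi_unit u2.inv_mul p2
  have i3 := pi_unit u3.inv_mul p3
  have i4 := pi_unit u4.inv_mul p4
  let d : Fin 5 → Mo := ![↑u2⁻¹ * lt 0, ↑u3⁻¹ * lt 1, lt 2, lt 3 * (↑u1⁻¹ * ↑u2),
    lt 4 * (↑u4⁻¹ * ↑u3)]
  have d0 : d 0 = ↑u2⁻¹ * lt 0 := rfl
  have d1 : d 1 = ↑u3⁻¹ * lt 1 := rfl
  have d2 : d 2 = lt 2 := rfl
  have d3 : d 3 = lt 3 * (↑u1⁻¹ * ↑u2) := rfl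
  have d4 : d 4 = lt 4 * (↑u4⁻¹ * ↑u3) := rfl
  have e1 : d 0 * d 2 = 1 := by
    rw [d0, d2, mul_assoc, ← hu2, Units.inv_mul]
  have e2 : d 0 * d 3 = 1 := by
    rw [d0, d3, mul_assoc, ← mul_assoc (lt 0), ← hu1, Units.mul_inv_cancel_left, Units.inv_mul]
  have e3 : d 1 * d 2 = 1 := by
    rw [d1, d2, mul_assoc, ← hu3, Units.inv_mul]
  have e4 : d 1 * d 4 = 1 := by
    rw [d1, d4, mul_assoc, ← mul_assoc (lt 1), ← hu4, Units.mul_inv_cancel_left, Units.inv_mul]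
  refine ⟨d, ?_, ?_⟩
  · have key : ∀ x y : Fin 5, cp x y = true → (x = 0 ∧ y = 2) ∨ (x = 0 ∧ y = 3) ∨
        (x = 1 ∧ y = 2) ∨ (x = 1 ∧ y = 4) := by decide
    intro x y h
    rcases key x y h with ⟨rfl, rfl⟩ | ⟨rfl, rfl⟩ | ⟨rfl, rfl⟩ | ⟨rfl, rfl⟩
    · exact e1
    · exact e2
    · exact e3
    · exact e4
  · intro c
    have key : ∀ c : Fin 5, c = 0 ∨ c = 1 ∨ c = 2 ∨ c = 3 ∨ c = 4 := by decide
    rcases key c with rfl | rfl | rfl | rfl | rfl
    · rw [d0, map_mul, i2, one_mul, piM_lt]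
    · rw [d1, map_mul, i3, one_mul, piM_lt]
    · rw [d2, piM_lt]
    · rw [d3, map_mul, map_mul, i1, p2, one_mul, mul_one, piM_lt]
    · rw [d4, map_mul, map_mul, i4, p3, one_mul, mul_one, piM_lt]

end Pool.Agent.Helper55.OneRel
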