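import Pool.Agent.Helper55.OneRel.Arith
import Pool.Agent.Helper55.OneRel.Univ

set_option autoImplicit false

namespace Pool.Agent.Helper55.OneRel

open Turing StateTransition Relation

/-! Stack machines as affine machines. -/

section

variable {Q K Γ : Type} (cg : Γ → ℕ) (b : ℕ)

/-- the number of a stack -/
def num : List Γ → ℕ
  | [] => 0
  | a :: l => cg a + b * num l

/-- coefficient -/
def a1 : Option Γ → ℕ
  | none => 0
  | some _ => b

/-- coefficient -/
def b1 : Option Γ → ℕ
  | none => 0
  | some a => cg a

/-- coefficient -/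
def a2 : Op Γ → Option Γ → ℕ
  | _, none => 0
  | .keep, some _ => b
  | .push _, some _ => b * b
  | .pop, some _ => 1

/-- coefficient -/
def b2 : Op Γ → Option Γ → ℕ
  | .keep, none => 0
  | .push a, none => cg a
  | .pop, none => 0
  | .keep, some c => cg c
  | .push a, some c => cg a + b * cg c
  | .pop, some _ => 0

theorem num_top (l : List Γ) : num cg b l = a1 b l[0]? * num cg b l.tail + b1 cg l[0]? := by
  cases l with
  | nil => rfl
  | cons a l =>
    show cg a + b * num cg b l = b * num cg b l + cg a
    ring

theorem num_apply (op : Op Γ) (l : List Γ) :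
    num cg b (op.apply l) = a2 b op l[0]? * num cg b l.tail + b2 cg b op l[0]? := by
  cases l with
  | nil =>
    cases op with
    | keep => rfl
    | push a =>
      show cg a + b * 0 = 0 * 0 + cg a
      ring
    | pop => rfl
  | cons c l =>
    cases op with
    | keep =>
      show cg c + b * num cg b l = b * num cg b l + cg c
      ring
    | push a =>
      show cg a + b * (cg c + b * num cg b l) = b * b * num cg b l + (cg a + b * cg c)
      ring
    | pop =>
      show num cg b l = 1 * num cg b l + 0
      ring

variable {cg b}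

theorem top_of_num (hinj : Function.Injective cg) (hpos : ∀ a, 0 < cg a) (hlt : ∀ a, cg a < b)
    {l : List Γ} {s : Option Γ} {w : ℕ} (h : num cg b l = a1 b s * w + b1 cg s) :
    s = l[0]? ∧ (s = none ∨ w = num cg b l.tail) := by
  cases s with
  | none =>
    cases l with
    | nil => exact ⟨rfl, Or.inl rfl⟩
    | cons a l =>
      exfalso
      have h1 : cg a + b * num cg b l = 0 * w + 0 := h
      have := hpos a
      omega
  | some c =>
    cases l with
    | nil =>
      exfalso
      have h1 : 0 = b * w + cg c := h
      have := hpos c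
      omega
    | cons a l =>
      have h1 : cg a + b * num cg b l = b * w + cg c := h
      have h2 : cg a = cg c := by
        have h3 := congrArg (· % b) h1
        simp only [Nat.add_mul_mod_self_left, Nat.mul_add_mod] at h3
        rwa [Nat.mod_eq_of_lt (hlt a), Nat.mod_eq_of_lt (hlt c)] at h3
      have h4 : a = c := hinj h2
      subst h4
      refine ⟨rfl, Or.inr ?_⟩
      have h5 : b * w = b * num cg b l := by omega
      exact Nat.eq_of_mul_eq_mul_left (lt_of_le_of_lt (Nat.zero_le _) (hlt a)) h5

variable (cg b) (cq : Q → ℕ) (M : Mach Q K Γ)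

/-- the numbers of a configuration -/
def enc (c : Q × (K → List Γ)) : Option K → ℕ
  | none => cq c.1
  | some κ => num cg b (c.2 κ)

/-- the affine machine -/
def aff : Aff (Q × (K → Option Γ)) (Option K) where
  A := fun τ i => match i with
    | none => 0
    | some κ => a1 b (τ.2 κ)
  B := fun τ i => match i with
    | none => cq τ.1
    | some κ => b1 cg (τ.2 κ)
  A' := fun τ i => match M.tr τ.1 τ.2, i with
    | none, _ => 0
    | some _, none => 0
    | some p, some κ => a2 b (p.2 κ) (τ.2 κ)
  B' := fun τ i => match M.tr τ.1 τ.2, i with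
    | none, _ => 0
    | some p, none => cq p.1
    | some p, some κ => b2 cg b (p.2 κ) (τ.2 κ)

variable {cg b cq}

theorem step_next (c c' : Q × (K → List Γ)) (h : M.next c = some c') :
    (aff cg b cq M).Step (enc cg b cq c) (enc cg b cq c') := by
  refine ⟨(c.1, col c.2 0), fun i => match i with
    | none => 0
    | some κ => num cg b (c.2 κ).tail, ?_⟩
  unfold Mach.next at h
  rw [Option.map_eq_some_iff] at h
  obtain ⟨p, hp, rfl⟩ := h
  intro i
  cases i with
  | none =>
    refine ⟨by simp [enc, aff], ?_⟩
    simp only [enc, aff, hp]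
    simp
  | some κ =>
    refine ⟨num_top cg b (c.2 κ), ?_⟩
    simp only [enc, aff, hp]
    exact num_apply cg b (p.2 κ) (c.2 κ)

theorem step_halt (c : Q × (K → List Γ)) (h : M.next c = none) :
    (aff cg b cq M).Step (enc cg b cq c) (fun _ => 0) := by
  refine ⟨(c.1, col c.2 0), fun i => match i with
    | none => 0
    | some κ => num cg b (c.2 κ).tail, ?_⟩
  unfold Mach.next at h
  rw [Option.map_eq_none_iff] at h
  intro i
  cases i with
  | none =>
    refine ⟨by simp [enc, aff], ?_⟩
    simp [aff, h]
  | some κ =>
    refine ⟨num_top cg b (c.2 κ), ?_⟩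
    simp [aff, h]

theorem step_inv (hq : Function.Injective cq) (hinj : Function.Injective cg)
    (hpos : ∀ a, 0 < cg a) (hlt : ∀ a, cg a < b) (c : Q × (K → List Γ)) (m : Option K → ℕ)
    (h : (aff cg b cq M).Step (enc cg b cq c) m) :
    (∃ c', M.next c = some c' ∧ m = enc cg b cq c') ∨ M.next c = none := by
  obtain ⟨⟨q, s⟩, w, hw⟩ := h
  have h1 : cq c.1 = 0 * w none + cq q := (hw none).1
  have h2 : c.1 = q := hq (by omega)
  have h3 : ∀ κ, s κ = (c.2 κ)[0]? ∧ (s κ = none ∨ w (some κ) = num cg b (c.2 κ).tail) :=
    fun κ => top_of_num hinj hpos hlt (hw (some κ)).1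
  have h4 : s = col c.2 0 := funext fun κ => (h3 κ).1
  cases hn : M.tr q s with
  | none =>
    right
    unfold Mach.next
    rw [h2, ← h4, hn]
    rfl
  | some p =>
    left
    refine ⟨(p.1, fun κ => (p.2 κ).apply (c.2 κ)), ?_, ?_⟩
    · unfold Mach.next
      rw [h2, ← h4, hn]
      rfl
    · funext i
      cases i with
      | none =>
        have := (hw none).2
        simp only [aff, hn] at this
        rw [this]
        simp [enc]
      | some κ =>
        have := (hw (some κ)).2
        simp only [aff, hn] at this
        rw [this]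
        show _ = num cg b ((p.2 κ).apply (c.2 κ))
        rw [num_apply, ← (h3 κ).1]
        rcases (h3 κ).2 with h5 | h5
        · rw [h5]
          simp [a2]
        · rw [h5]

theorem halts_of_run (hq : Function.Injective cq) (hq0 : ∀ q, 0 < cq q)
    (hinj : Function.Injective cg) (hpos : ∀ a, 0 < cg a) (hlt : ∀ a, cg a < b) (T : ℕ)
    (c : Q × (K → List Γ)) (h : (aff cg b cq M).Run T (enc cg b cq c)) : M.Halts c := by
  induction T generalizing c with
  | zero =>
    exfalso
    have h1 : cq c.1 = 0 := h none
    have := hq0 c.1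
    omega
  | succ T ih =>
    obtain ⟨m, hm, hr⟩ := h
    rcases step_inv M hq hinj hpos hlt c m hm with ⟨c', h1, rfl⟩ | h1
    · have h2 := ih c' hr
      rw [← eval_dom_iff] at h2 ⊢
      have h3 : Reaches M.next c c' := ReflTransGen.single h1
      rw [reaches_eval h3]
      exact h2
    · exact ⟨0, h1⟩

theorem run_of_halts (c : Q × (K → List Γ)) (h : M.Halts c) :
    ∃ T, (aff cg b cq M).Run T (enc cg b cq c) := by
  rw [← eval_dom_iff] at h
  obtain ⟨h1, h2⟩ := mem_eval.1 ⟨h, rfl⟩
  generalize (eval M.next c).get h = d at h1 h2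
  have h1' : ReflTransGen (fun a b => b ∈ M.next a) c d := h1
  clear h1 h
  induction h1' using ReflTransGen.head_induction_on with
  | refl =>
    exact ⟨1, fun _ => 0, step_halt M _ h2, fun _ => rfl⟩
  | head h3 _ ih =>
    obtain ⟨T, hT⟩ := ih
    exact ⟨T + 1, _, step_next M _ _ h3, hT⟩

theorem run_iff_halts (hq : Function.Injective cq) (hq0 : ∀ q, 0 < cq q)
    (hinj : Function.Injective cg) (hpos : ∀ a, 0 < cg a) (hlt : ∀ a, cg a < b)
    (c : Q × (K → List Γ)) :
    (∃ T, (aff cg b cq M).Run T (enc cg b cq c)) ↔ M.Halts c :=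
  ⟨fun ⟨T, h⟩ => halts_of_run M hq hq0 hinj hpos hlt T c h, run_of_halts M c⟩

end

end Pool.Agent.Helper55.OneRel
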