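import Pool.Agent.Helper55.OneRel.DioSet
import Pool.Agent.Helper55.OneRel.Rules
import Pool.Agent.Helper55.OneRel.Quot

set_option autoImplicit false

namespace Pool.Agent.Helper55.OneRel

open Turing PartrecToTM2

/-! The Diophantine problem of the one-relator monoid is undecidable. -/

section rename

variable {V : Type}

/-- replace constants by words and variables by numbers -/
def ren (dw : Fin 5 → Wd) (f : V → ℕ) (e : SW V) : List (Fin 5 ⊕ ℕ) :=
  e.flatMap (Sum.elim (fun c => (dw c).map Sum.inl) (fun x => [Sum.inr (f x)]))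

theorem evS_append {V H : Type} [Monoid H] (d : Fin 5 → H) (σ : V → H) (e e' : SW V) :
    evS d σ (e ++ e') = evS d σ e * evS d σ e' := by
  simp [evS]

theorem evS_cons {V H : Type} [Monoid H] (d : Fin 5 → H) (σ : V → H) (x : Fin 5 ⊕ V)
    (e : SW V) : evS d σ (x :: e) = Sum.elim d σ x * evS d σ e := by
  simp [evS]

theorem evS_map_inl {V H : Type} [Monoid H] (d : Fin 5 → H) (σ : V → H) (u : Wd) :
    evS d σ (u.map Sum.inl) = (u.map d).prod := by
  simp [evS, Function.comp_def]

theorem evS_ren {H : Type} [Monoid H] {l d : Fin 5 → H} {dw : Fin 5 → Wd}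
    (hdw : ∀ c, ((dw c).map l).prod = d c) (f : V → ℕ) (σ : ℕ → H) (e : SW V) :
    evS l σ (ren dw f e) = evS d (σ ∘ f) e := by
  induction e with
  | nil => rfl
  | cons x e ih =>
    have h1 : ren dw f (x :: e) =
        Sum.elim (fun c => (dw c).map Sum.inl) (fun x => [Sum.inr (f x)]) x ++ ren dw f e := rfl
    rw [h1, evS_append, ih, evS_cons]
    cases x with
    | inl c =>
      show evS l σ ((dw c).map Sum.inl) * _ = _
      rw [evS_map_inl, hdw]
      rfl
    | inr x =>
      show evS l σ [Sum.inr (f x)] * _ = _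
      simp [evS]

theorem evS_congr {H : Type} [Monoid H] {d : Fin 5 → H} {σ σ' : V → H} {e : SW V}
    (h : ∀ x, Sum.inr x ∈ e → σ x = σ' x) : evS d σ e = evS d σ' e := by
  induction e with
  | nil => rfl
  | cons y e ih =>
    rw [evS_cons, evS_cons, ih fun x hx => h x (List.mem_cons_of_mem _ hx)]
    cases y with
    | inl c => rfl
    | inr x =>
      show σ x * _ = σ' x * _
      rw [h x List.mem_cons_self]

/-- the position in a list -/
noncomputable def idx (L : List V) (x : V) : ℕ :=
  letI : DecidableEq V := Classical.decEq V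
  L.idxOf x

theorem getElem?_idx {L : List V} {x : V} (hx : x ∈ L) : L[idx L x]? = some x := by
  let _ : DecidableEq V := Classical.decEq V
  exact List.getElem?_idxOf hx

theorem ren_iff {H : Type} [Monoid H] {l d : Fin 5 → H} {dw : Fin 5 → Wd}
    (hdw : ∀ c, ((dw c).map l).prod = d c) (L : List V) (S : List (SW V × SW V))
    (hL : ∀ e ∈ S, ∀ x, Sum.inr x ∈ e.1 ∨ Sum.inr x ∈ e.2 → x ∈ L) :
    (∃ σ : ℕ → H, ∀ e ∈ S.map (fun e => (ren dw (idx L) e.1, ren dw (idx L) e.2)),
      evS l σ e.1 = evS l σ e.2) ↔ ∃ σ : V → H, ∀ e ∈ S, evS d σ e.1 = evS d σ e.2 := by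
  constructor
  · rintro ⟨σ, h⟩
    refine ⟨σ ∘ idx L, fun e he => ?_⟩
    have := h _ (List.mem_map.2 ⟨e, he, rfl⟩)
    simp only [evS_ren hdw] at this
    exact this
  · rintro ⟨σ, h⟩
    refine ⟨fun k => (L[k]?).elim 1 σ, fun e he => ?_⟩
    rw [List.mem_map] at he
    obtain ⟨e, he, rfl⟩ := he
    simp only [evS_ren hdw]
    have key : ∀ x ∈ L, ((fun k => (L[k]?).elim 1 σ) ∘ idx L) x = σ x := by
      intro x hx
      show (L[idx L x]?).elim 1 σ = σ x
      rw [getElem?_idx hx]
      rfl
    rw [evS_congr fun x hx => key x (hL e he x (Or.inl hx)),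
      evS_congr fun x hx => key x (hL e he x (Or.inr hx))]
    exact h e he

end rename

/-- `n` copies of a word -/
def rep {α : Type} (u : List α) : ℕ → List α
  | 0 => []
  | n + 1 => u ++ rep u n

theorem ren_replicate {V : Type} (dw : Fin 5 → Wd) (f : V → ℕ) (n : ℕ) :
    ren dw f (List.replicate n (Sum.inl 2)) = rep ((dw 2).map Sum.inl) n := by
  induction n with
  | zero => rfl
  | succ n ih =>
    rw [List.replicate_succ]
    show (dw 2).map Sum.inl ++ ren dw f (List.replicate n (Sum.inl 2)) = _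
    rw [ih]
    rfl

theorem rep_primrec {α : Type} [Primcodable α] (u : List α) : Primrec (rep u) := by
  have h : Primrec fun n : ℕ => (Nat.rec [] (fun _ l => u ++ l) n : List α) :=
    Primrec.nat_rec' Primrec.id (Primrec.const []) (Primrec.list_append.comp (Primrec.const u)
      (Primrec.snd.comp Primrec.snd)).to₂
  refine h.of_eq fun n => ?_
  induction n with
  | zero => rfl
  | succ n ih =>
    show u ++ _ = u ++ _
    rw [← ih]

/-- the number of the initial stack -/
def inum (cg : Γ' → ℕ) (b : ℕ) : ℕ → ℕ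
  | 0 => cg .bit1 + b * (cg .cons + b * 0)
  | n + 1 => cg .bit1 + b * (cg .cons + b * inum cg b n)

theorem inum_primrec (cg : Γ' → ℕ) (b : ℕ) : Primrec (inum cg b) := by
  have h : Primrec fun n : ℕ => (Nat.rec (cg .bit1 + b * (cg .cons + b * 0))
      (fun _ l => cg .bit1 + b * (cg .cons + b * l)) n : ℕ) :=
    Primrec.nat_rec' Primrec.id (Primrec.const _)
      (Primrec.nat_add.comp (Primrec.const _) (Primrec.nat_mul.comp (Primrec.const b)
        (Primrec.nat_add.comp (Primrec.const _) (Primrec.nat_mul.comp (Primrec.const b)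
          (Primrec.snd.comp Primrec.snd))))).to₂
  refine h.of_eq fun n => ?_
  induction n with
  | zero => rfl
  | succ n ih =>
    show cg .bit1 + b * (cg .cons + b * _) = cg .bit1 + b * (cg .cons + b * _)
    rw [← ih]

theorem num_init (cg : Γ' → ℕ) (b e : ℕ) :
    num cg b (trList (List.replicate (e + 1) 1)) = inum cg b e := by
  have h1 : trNat 1 = [Γ'.bit1] := rfl
  induction e with
  | zero =>
    show num cg b (trNat 1 ++ Γ'.cons :: []) = _
    rw [h1]
    rfl
  | succ e ih =>
    rw [List.replicate_succ]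
    show num cg b (trNat 1 ++ Γ'.cons :: trList (List.replicate (e + 1) 1)) = _
    rw [h1]
    show cg .bit1 + b * (cg .cons + b * num cg b (trList (List.replicate (e + 1) 1))) = _
    rw [ih]
    rfl

/-- the codes of the stack symbols -/
def cgd : Γ' → ℕ
  | .consₗ => 1
  | .cons => 2
  | .bit0 => 3
  | .bit1 => 4

/-- There are terms such that solvability of `s = t` with a prescribed value of a variable is
undecidable. -/
theorem exists_undecidable_terms : ∃ (γ : Type) (x0 : γ) (s t : Tm γ) (F : ℕ → ℕ),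
    Primrec F ∧ ¬ ∃ g : ℕ → Bool, Computable g ∧
      ∀ e, g e = true ↔ ∃ v : γ → ℕ, v x0 = F e ∧ s.eval v = t.eval v := by
  classical
  obtain ⟨Q, hQ, M, q0, hM⟩ := exists_universal
  let _ : Fintype Q := Fintype.ofFinite Q
  let _ : Fintype K' := Fintype.ofFinite K'
  let _ : Fintype (K' → Option Γ') := Fintype.ofFinite _
  let cq : Q → ℕ := fun q => (Fintype.equivFin Q q).val + 1
  have hq : Function.Injective cq := by
    intro a b h
    have h1 : (Fintype.equivFin Q a).val = (Fintype.equivFin Q b).val := by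
      have : (Fintype.equivFin Q a).val + 1 = (Fintype.equivFin Q b).val + 1 := h
      omega
    exact (Fintype.equivFin Q).injective (Fin.ext h1)
  have hq0 : ∀ q, 0 < cq q := fun q => Nat.succ_pos _
  have hinj : Function.Injective cgd := by
    intro a b h
    cases a <;> cases b <;> first | rfl | exact absurd h (by decide)
  have hpos : ∀ a, 0 < cgd a := by
    intro a
    cases a <;> decide
  have hlt : ∀ a, cgd a < 5 := by
    intro a
    cases a <;> decide
  let F := aff cgd 5 cq M
  obtain ⟨K, hK⟩ := F.exists_bd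
  let m0 : Option K' → ℕ := fun i => match i with
    | none => cq q0
    | some _ => 0
  obtain ⟨γ, x0, s, t, hst⟩ := exists_terms (cond_dioph F hK m0 (some K'.main))
  refine ⟨γ, x0, s, t, inum cgd 5, inum_primrec _ _, ?_⟩
  rintro ⟨g, hg, hg'⟩
  apply hM
  refine ⟨g, hg, fun e => ?_⟩
  rw [hg' e, ← hst]
  have h1 : (fun i => if i = some K'.main then inum cgd 5 e else m0 i) =
      enc cgd 5 cq (q0, K'.elim (trList (List.replicate (e + 1) 1)) [] [] []) := by
    funext i
    cases i with
    | none => rfl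
    | some κ =>
      show _ = num cgd 5 (K'.elim (trList (List.replicate (e + 1) 1)) [] [] [] κ)
      cases κ with
      | main =>
        rw [if_pos rfl]
        exact (num_init cgd 5 e).symm
      | rev => rfl
      | aux => rfl
      | stack => rfl
  rw [← run_iff_halts M hq hq0 hinj hpos hlt, ← h1]
  exact (F.run_iff hK _).symm

theorem mem_bigSys_vars {γ : Type} (s t : Tm γ) (x0 : γ) :
    ∃ L : List (Tm γ × ℕ), ∀ n, ∀ e ∈ bigSys s t x0 n, ∀ x,
      Sum.inr x ∈ e.1 ∨ Sum.inr x ∈ e.2 → x ∈ L := by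
  refine ⟨(bigSys s t x0 0).flatMap fun e => (e.1 ++ e.2).filterMap
    (Sum.elim (fun _ => none) some), fun n e he x hx => ?_⟩
  have key : ∀ e ∈ bigSys s t x0 0, ∀ x, Sum.inr x ∈ e.1 ∨ Sum.inr x ∈ e.2 →
      x ∈ (bigSys s t x0 0).flatMap fun e => (e.1 ++ e.2).filterMap
        (Sum.elim (fun _ => none) some) := by
    intro e he x hx
    rw [List.mem_flatMap]
    refine ⟨e, he, ?_⟩
    rw [List.mem_filterMap]
    exact ⟨Sum.inr x, List.mem_append.2 hx, rfl⟩
  unfold bigSys at he
  rw [List.mem_append] at he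
  rcases he with he | he
  · refine key e ?_ x hx
    unfold bigSys
    exact List.mem_append.2 (Or.inl he)
  · rw [List.mem_singleton] at he
    subst he
    refine key ([Sum.inr (.var x0, 0)], []) ?_ x (Or.inl ?_)
    · unfold bigSys
      exact List.mem_append.2 (Or.inr (List.mem_singleton.2 rfl))
    · rcases hx with hx | hx
      · exact hx
      · exact absurd (List.eq_of_mem_replicate hx) (by simp)

/-- The Diophantine problem of `Mo` is undecidable. -/
theorem undecidable : ¬ ComputablePred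
    (fun S : List (List (Fin 5 ⊕ ℕ) × List (Fin 5 ⊕ ℕ)) =>
      ∃ σ : ℕ → Mo, ∀ e ∈ S, evS lt σ e.1 = evS lt σ e.2) := by
  classical
  intro hP
  obtain ⟨γ, x0, s, t, F, hF, hno⟩ := exists_undecidable_terms
  obtain ⟨d, hd, hpd⟩ := exists_decorated
  choose dw hdw using fun c => exists_word (d c)
  obtain ⟨L, hL⟩ := mem_bigSys_vars s t x0
  obtain ⟨f, hf, hPf⟩ := ComputablePred.computable_iff.1 hP
  apply hno
  let C1 : List (List (Fin 5 ⊕ ℕ) × List (Fin 5 ⊕ ℕ)) :=
    (sys s ++ (sys t ++ [(([Sum.inr (s, 0)] : SW (Tm γ × ℕ)), [Sum.inr (t, 0)])])).map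
      (fun e : SW (Tm γ × ℕ) × SW (Tm γ × ℕ) => (ren dw (idx L) e.1, ren dw (idx L) e.2))
  let C2 : List (Fin 5 ⊕ ℕ) := ren dw (idx L) [.inr (.var x0, 0)]
  let Sy : ℕ → List (List (Fin 5 ⊕ ℕ) × List (Fin 5 ⊕ ℕ)) := fun e =>
    C1 ++ [(C2, rep ((dw 2).map Sum.inl) (F e))]
  have hSy : ∀ e, Sy e = (bigSys s t x0 (F e)).map
      (fun e => (ren dw (idx L) e.1, ren dw (idx L) e.2)) := by
    intro e
    unfold bigSys
    rw [List.map_append, List.map_singleton, ren_replicate]
  have hcomp : Primrec Sy := by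
    have h1 : Primrec fun e => rep ((dw 2).map Sum.inl : List (Fin 5 ⊕ ℕ)) (F e) :=
      (rep_primrec _).comp hF
    have h2 : Primrec fun e => (C2, rep ((dw 2).map Sum.inl : List (Fin 5 ⊕ ℕ)) (F e)) :=
      Primrec.pair (Primrec.const C2) h1
    have h3 : Primrec fun e => [(C2, rep ((dw 2).map Sum.inl : List (Fin 5 ⊕ ℕ)) (F e))] :=
      Primrec.list_cons.comp h2 (Primrec.const [])
    exact Primrec.list_append.comp (Primrec.const C1) h3
  refine ⟨fun e => f (Sy e), hf.comp hcomp.to_comp, fun e => ?_⟩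
  have h1 : f (Sy e) = true ↔ ∃ σ : ℕ → Mo, ∀ z ∈ Sy e, evS lt σ z.1 = evS lt σ z.2 := by
    exact (iff_of_eq (congrFun hPf (Sy e))).symm
  beta_reduce
  rw [hSy] at h1 ⊢
  refine h1.trans ((ren_iff hdw L _ (hL (F e))).trans ?_)
  exact bigSys_iff d hd (fun h => piM h) (by
    show (piM 1 : Function.End Wd) = _
    rw [map_one]
    rfl) (fun x y => by
    show (piM (x * y) : Function.End Wd) = _
    rw [map_mul]
    rfl) hpd (fun h => by
    obtain ⟨u, rfl⟩ := exists_word h
    exact ⟨u, piM_word u⟩) s t x0 (F e)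

end Pool.Agent.Helper55.OneRel
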