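import Pool.Agent.Helper55.OneRel.Mon

set_option autoImplicit false

namespace Pool.Agent.Helper55.OneRel

/-! The gadget for `(n + 1) (n + 2) = lcm (n + 1) (n + 2)`. -/

/-- a periodic pattern -/
def pat (p : ℕ) (c : Fin 5) (t : ℕ) : Fin 5 := if p ∣ t then c else 2

/-- the beginning of a periodic pattern -/
def pw (p : ℕ) (c : Fin 5) (m : ℕ) : Wd := (List.range m).map (pat p c)

theorem pat_add (p : ℕ) (c : Fin 5) (j t : ℕ) : pat p c (p * j + t) = pat p c t := by
  unfold pat
  simp only [Nat.dvd_add_right (dvd_mul_right p j)]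

theorem pw_add (p : ℕ) (c : Fin 5) (j m : ℕ) : pw p c (p * j + m) = pw p c (p * j) ++ pw p c m := by
  unfold pw
  rw [List.range_add, List.map_append, List.map_map]
  congr 1
  apply List.map_congr_left
  intro t _
  exact pat_add p c j t

theorem pw_one (n : ℕ) (c : Fin 5) : pw (n + 1) c (n + 1) = c :: List.replicate n 2 := by
  unfold pw
  rw [List.range_succ_eq_map, List.map_cons, List.map_map]
  congr 1
  apply List.ext_getElem
  · simp
  · intro i h1 h2
    simp only [List.length_map, List.length_range] at h1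
    simp only [List.getElem_map, List.getElem_range, List.getElem_replicate, Function.comp, pat]
    rw [if_neg]
    intro h
    have := Nat.le_of_dvd (Nat.succ_pos i) h
    omega

theorem pw_comm (n : ℕ) (c : Fin 5) (j : ℕ) :
    pw (n + 1) c ((n + 1) * j) ++ (c :: List.replicate n 2) =
      (c :: List.replicate n 2) ++ pw (n + 1) c ((n + 1) * j) := by
  rw [← pw_one, ← pw_add]
  have h := pw_add (n + 1) c 1 ((n + 1) * j)
  rw [mul_one] at h
  rw [← h, add_comm (n + 1) ((n + 1) * j)]

theorem period_aux {n : ℕ} {c : Fin 5} {y : Wd}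
    (h : y ++ (c :: List.replicate n 2) = (c :: List.replicate n 2) ++ y) (t : ℕ)
    (ht : t < y.length) : y[t]? = some (pat (n + 1) c t) := by
  induction t using Nat.strong_induction_on with
  | _ t ih =>
    have h1 : (y ++ (c :: List.replicate n 2))[t]? = y[t]? := List.getElem?_append_left ht
    rw [← h1, h, ← pw_one]
    by_cases ht2 : t < n + 1
    · rw [List.getElem?_append_left (by simpa [pw] using ht2)]
      simp [pw, ht2]
    · have h2 : (pw (n + 1) c (n + 1)).length = n + 1 := by simp [pw]
      rw [List.getElem?_append_right (by omega), h2, ih (t - (n + 1)) (by omega) (by omega)]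
      have h3 : t = (n + 1) * 1 + (t - (n + 1)) := by omega
      congr 1
      conv_rhs => rw [h3]
      rw [pat_add]

theorem period_length {n : ℕ} {c : Fin 5} (hc : c ≠ 2) {y : Wd}
    (h : y ++ (c :: List.replicate n 2) = (c :: List.replicate n 2) ++ y) :
    (n + 1) ∣ y.length := by
  have h1 : (y ++ (c :: List.replicate n 2))[y.length]? = some c := by
    rw [List.getElem?_append_right le_rfl]
    simp
  rw [h, ← pw_one] at h1
  have h2 : (pw (n + 1) c (n + 1)).length = n + 1 := by simp [pw]
  by_cases ht : y.length < n + 1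
  · rw [List.getElem?_append_left (by omega)] at h1
    simp only [pw, List.getElem?_map, List.getElem?_range ht, Option.map_some,
      Option.some.injEq, pat] at h1
    by_contra h3
    rw [if_neg h3] at h1
    exact hc h1.symm
  · rw [List.getElem?_append_right (by omega), h2,
      period_aux h _ (by omega)] at h1
    simp only [Option.some.injEq, pat] at h1
    by_cases h3 : (n + 1) ∣ (y.length - (n + 1))
    · have h4 : y.length = (y.length - (n + 1)) + (n + 1) := by omega
      rw [h4]
      exact Dvd.dvd.add h3 (dvd_refl _) |>.trans (dvd_refl _)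
    · rw [if_neg h3] at h1
      exact absurd h1.symm hc

theorem lcm_number {n m : ℕ} (h1 : (n + 1) ∣ m) (h2 : (n + 2) ∣ m) (h0 : 0 < m)
    (h3 : ∀ t, 0 < t → t < m → ¬ ((n + 1) ∣ t ∧ (n + 2) ∣ t)) : m = (n + 1) * (n + 2) := by
  have hco : Nat.Coprime (n + 1) (n + 2) := by
    have := Nat.coprime_self_add_right (m := n + 1) (n := 1)
    rw [show n + 2 = n + 1 + 1 from rfl]
    simp
  have h4 : (n + 1) * (n + 2) ∣ m := hco.mul_dvd_of_dvd_of_dvd h1 h2
  have h5 := Nat.le_of_dvd h0 h4
  by_contra h6
  exact h3 ((n + 1) * (n + 2)) (by positivity) (by omega)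
    ⟨dvd_mul_right _ _, dvd_mul_left _ _⟩

theorem LW_rep (n : ℕ) {c : Fin 5} (hc : c ≠ 0 ∧ c ≠ 1) : LW (c :: List.replicate n 2) := by
  intro x hx
  rcases List.mem_cons.1 hx with rfl | hx
  · exact hc
  · rw [List.eq_of_mem_replicate hx]
    decide

theorem Nm_cons_L {y : Wd} (hy : Nm y) {c : Fin 5} (hc : c ≠ 0 ∧ c ≠ 1) : Nm (c :: y) := by
  have := Nm_push c hy
  rwa [push_of_L hc] at this

theorem comm_gad {z : Wd} (hz : Nm z) {c : Fin 5} (hc : c ≠ 0 ∧ c ≠ 1) (n : ℕ)
    (h : nf (c :: z ++ c :: List.replicate n 2) = nf (c :: List.replicate n 2 ++ c :: z)) :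
    (c :: z) ++ (c :: List.replicate n 2) = (c :: List.replicate n 2) ++ (c :: z) := by
  have h1 : Nm (c :: z) := Nm_cons_L hz hc
  have h2 : LW (c :: List.replicate n 2) := LW_rep n hc
  have h3 : nf (c :: List.replicate n 2) = c :: List.replicate n 2 := by
    have := act_of_L h2 []
    rwa [List.append_nil] at this
  rw [nf_append, nf_append, nf_of_Nm h1, h3] at h
  exact comm_L h2 h

theorem gadget_sound {n : ℕ} {z1 z2 x y m : Wd} (hz1 : Nm z1) (hz2 : Nm z2) (hx : Nm x)
    (hy : Nm y) (hm : Nm m)
    (e1 : nf (3 :: z1 ++ 3 :: List.replicate n 2) = nf (3 :: List.replicate n 2 ++ 3 :: z1))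
    (e2 : nf (4 :: z2 ++ 4 :: List.replicate (n + 1) 2) =
      nf (4 :: List.replicate (n + 1) 2 ++ 4 :: z2))
    (e3 : nf (x ++ z1) = []) (e4 : nf (x ++ z2) = [])
    (e6 : nf (y ++ 3 :: z1) = [])
    (e7 : nf (y ++ m) = []) (e8 : nf (m ++ [2]) = nf ([2] ++ m)) :
    m = List.replicate ((n + 1) * (n + 2)) 2 := by
  have c1 := comm_gad hz1 (by decide) n e1
  have c2 := comm_gad hz2 (by decide) (n + 1) e2
  rw [nf_append, nf_of_Nm hz1] at e3
  rw [nf_append, nf_of_Nm hz2] at e4
  have f3 := act_eq_nil hx hz1 e3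
  have f4 := act_eq_nil hx hz2 e4
  have hz1' : Nm (3 :: z1) := Nm_cons_L hz1 (by decide)
  rw [nf_append, nf_of_Nm hz1'] at e6
  rw [nf_append, nf_of_Nm hm] at e7
  have f6 := act_eq_nil hy hz1' e6
  have f7 := act_eq_nil hy hm e7
  have g8 : m = List.replicate m.length 2 := by
    apply eq_replicate
    apply comm_L (u := [2]) (by intro x hx; simp at hx; subst hx; decide)
    rw [nf_append, nf_append, nf_of_Nm hm] at e8
    exact e8
  have l3 := f3.length_eq
  have l4 := f4.length_eq
  have l6 := f6.length_eq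
  have l7 := f7.length_eq
  simp only [List.length_cons] at l6
  have k1 := period_length (by decide) c1
  have k2 := period_length (by decide) c2
  simp only [List.length_cons] at k1 k2
  have hlen : z1.length = z2.length := by omega
  have hml : m.length = z1.length + 1 := by omega
  rw [g8]
  congr 1
  rw [hml]
  apply lcm_number k1 (by rw [hlen]; exact k2) (Nat.succ_pos _)
  intro t ht1 ht2 ht3
  have p1 := period_aux c1 t (by simpa using ht2)
  have p2 := period_aux c2 t (by rw [List.length_cons, ← hlen]; exact ht2)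
  obtain ⟨t', rfl⟩ : ∃ t', t = t' + 1 := ⟨t - 1, by omega⟩
  rw [List.getElem?_cons_succ] at p1 p2
  simp only [pat, if_pos ht3.1, if_pos ht3.2] at p1 p2
  have q1 : t' < z1.length := by omega
  have q2 : t' < z2.length := by omega
  have q3 : t' < x.reverse.length := by omega
  have r1 := f3.get q3 q1
  have r2 := f4.get q3 q2
  rw [List.getElem?_eq_getElem q1] at p1
  rw [List.getElem?_eq_getElem q2] at p2
  have s1 : z1.get ⟨t', q1⟩ = 3 := by simpa using p1
  have s2 : z2.get ⟨t', q2⟩ = 4 := by simpa using p2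
  rw [s1] at r1
  rw [s2] at r2
  have key : ∀ c : Fin 5, cp c 3 = true → cp c 4 = true → False := by decide
  exact key _ r1 r2

section complete

variable {H : Type} [Monoid H] (d : Fin 5 → H)

/-- the value of a word -/
def ev (u : Wd) : H := (u.map d).prod

theorem ev_append (u v : Wd) : ev d (u ++ v) = ev d u * ev d v := by
  simp [ev]

theorem ev_cons (x : Fin 5) (v : Wd) : ev d (x :: v) = d x * ev d v := by
  simp [ev]

theorem ev_cancel (hd : ∀ x y, cp x y = true → d x * d y = 1) {x z : Wd}
    (h : List.Forall₂ (fun c l => cp c l = true) x z) : ev d x.reverse * ev d z = 1 := by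
  induction h with
  | nil => simp [ev]
  | cons h1 _ ih =>
    rename_i a b l1 l2 _
    rw [List.reverse_cons, ev_append, ev_cons, ev_cons]
    have : ev d [] = 1 := by simp [ev]
    rw [this, mul_one, mul_assoc, ← mul_assoc (d a), hd _ _ h1, one_mul, ih]

/-- the word `z1` -/
def gz1 (n : ℕ) : Wd := (List.range ((n + 1) * (n + 2) - 1)).map fun i => pat (n + 1) 3 (i + 1)
/-- the word `z2` -/
def gz2 (n : ℕ) : Wd := (List.range ((n + 1) * (n + 2) - 1)).map fun i => pat (n + 2) 4 (i + 1)
/-- the word `x` -/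
def gx (n : ℕ) : Wd := ((List.range ((n + 1) * (n + 2) - 1)).map fun i =>
  if (n + 1) ∣ (i + 1) then (0 : Fin 5) else 1).reverse
/-- the word `y` -/
def gy (n : ℕ) : Wd := List.replicate ((n + 1) * (n + 2)) 0

theorem cons_map_range (p : ℕ) (c : Fin 5) (m : ℕ) (hm : 0 < m) :
    c :: (List.range (m - 1)).map (fun i => pat p c (i + 1)) = pw p c m := by
  obtain ⟨k, rfl⟩ : ∃ k, m = k + 1 := ⟨m - 1, by omega⟩
  unfold pw
  rw [List.range_succ_eq_map, List.map_cons, List.map_map]
  simp only [Nat.add_sub_cancel]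
  rfl

theorem cons_gz1 (n : ℕ) : 3 :: gz1 n = pw (n + 1) 3 ((n + 1) * (n + 2)) :=
  cons_map_range _ _ _ (by positivity)

theorem cons_gz2 (n : ℕ) : 4 :: gz2 n = pw (n + 2) 4 ((n + 2) * (n + 1)) := by
  rw [mul_comm (n + 2)]
  exact cons_map_range _ _ _ (by positivity)

theorem forall2_map {α : Type} (R : Fin 5 → Fin 5 → Prop) (l : List α) (f g : α → Fin 5)
    (h : ∀ i ∈ l, R (f i) (g i)) : List.Forall₂ R (l.map f) (l.map g) := by
  induction l with
  | nil => exact List.Forall₂.nil
  | cons a l ih =>
    exact List.Forall₂.cons (h a List.mem_cons_self)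
      (ih fun i hi => h i (List.mem_cons_of_mem _ hi))

theorem cp_gz1 (n : ℕ) : List.Forall₂ (fun c l => cp c l = true) (gx n).reverse (gz1 n) := by
  unfold gx gz1
  rw [List.reverse_reverse]
  apply forall2_map
  intro i _
  unfold pat
  by_cases h : (n + 1) ∣ (i + 1)
  · rw [if_pos h, if_pos h]
    rfl
  · rw [if_neg h, if_neg h]
    rfl

theorem cp_gz2 (n : ℕ) : List.Forall₂ (fun c l => cp c l = true) (gx n).reverse (gz2 n) := by
  unfold gx gz2
  rw [List.reverse_reverse]
  apply forall2_map
  intro i hi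
  have hi := List.mem_range.1 hi
  unfold pat
  by_cases h : (n + 1) ∣ (i + 1)
  · rw [if_pos h, if_neg]
    · rfl
    · intro h2
      have hco : Nat.Coprime (n + 1) (n + 2) := by
        rw [show n + 2 = n + 1 + 1 from rfl]
        simp
      have h4 : (n + 1) * (n + 2) ∣ (i + 1) := hco.mul_dvd_of_dvd_of_dvd h h2
      have h5 := Nat.le_of_dvd (Nat.succ_pos i) h4
      omega
  · rw [if_neg h]
    by_cases h2 : (n + 2) ∣ (i + 1)
    · rw [if_pos h2]
      rfl
    · rw [if_neg h2]
      rfl

theorem forall2_replicate (c : Fin 5) (z : Wd) (h : ∀ l ∈ z, cp c l = true) :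
    List.Forall₂ (fun c l => cp c l = true) (List.replicate z.length c).reverse z := by
  rw [List.reverse_replicate]
  induction z with
  | nil => exact List.Forall₂.nil
  | cons a l ih =>
    rw [List.length_cons, List.replicate_succ]
    exact List.Forall₂.cons (h a List.mem_cons_self)
      (ih fun i hi => h i (List.mem_cons_of_mem _ hi))

theorem length_pw (p : ℕ) (c : Fin 5) (m : ℕ) : (pw p c m).length = m := by
  simp [pw]

variable {d}

theorem gadget_complete (hd : ∀ x y, cp x y = true → d x * d y = 1) (n : ℕ) :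
    ev d (3 :: gz1 n ++ 3 :: List.replicate n 2) =
      ev d (3 :: List.replicate n 2 ++ 3 :: gz1 n) ∧
    ev d (4 :: gz2 n ++ 4 :: List.replicate (n + 1) 2) =
      ev d (4 :: List.replicate (n + 1) 2 ++ 4 :: gz2 n) ∧
    ev d (gx n ++ gz1 n) = 1 ∧ ev d (gx n ++ gz2 n) = 1 ∧
    ev d (gy n ++ 3 :: gz1 n) = 1 ∧
    ev d (gy n ++ List.replicate ((n + 1) * (n + 2)) 2) = 1 ∧
    ev d (List.replicate ((n + 1) * (n + 2)) 2 ++ [2]) =
      ev d ([2] ++ List.replicate ((n + 1) * (n + 2)) 2) := by
  have rc : ∀ (m : ℕ) (c : Fin 5), List.replicate m c ++ [c] = [c] ++ List.replicate m c := by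
    intro m c
    rw [← List.replicate_succ']
    rfl
  refine ⟨?_, ?_, ?_, ?_, ?_, ?_, ?_⟩
  · rw [cons_gz1, pw_comm]
  · rw [cons_gz2]
    exact congrArg (ev d) (pw_comm (n + 1) 4 (n + 1))
  · have := ev_cancel d hd (cp_gz1 n)
    rw [List.reverse_reverse] at this
    rw [ev_append, this]
  · have := ev_cancel d hd (cp_gz2 n)
    rw [List.reverse_reverse] at this
    rw [ev_append, this]
  · have h1 := forall2_replicate 0 (pw (n + 1) 3 ((n + 1) * (n + 2))) (by
      intro l hl
      unfold pw at hl
      rw [List.mem_map] at hl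
      obtain ⟨t, _, rfl⟩ := hl
      unfold pat
      split <;> rfl)
    rw [length_pw] at h1
    have := ev_cancel d hd h1
    rw [List.reverse_reverse] at this
    rw [cons_gz1, ev_append]
    exact this
  · have h1 := forall2_replicate 0 (List.replicate ((n + 1) * (n + 2)) 2) (by
      intro l hl
      rw [List.eq_of_mem_replicate hl]
      rfl)
    rw [List.length_replicate] at h1
    have := ev_cancel d hd h1
    rw [List.reverse_reverse] at this
    rw [ev_append]
    exact this
  · rw [rc]

end complete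

end Pool.Agent.Helper55.OneRel
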