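import Mathlib

set_option autoImplicit false

namespace Pool.Agent.Helper55.OneRel

/-! Masking and binomial coefficients. -/

/-- all binary digits one of `a` are digits one of `b` -/
def Msk (a b : ℕ) : Prop := ∀ i, a.testBit i = true → b.testBit i = true

theorem Msk_div2 (a b : ℕ) : Msk a b ↔ (a % 2 = 1 → b % 2 = 1) ∧ Msk (a / 2) (b / 2) := by
  constructor
  · intro h
    refine ⟨fun h1 => ?_, fun i hi => ?_⟩
    · have := h 0
      rw [Nat.testBit_zero, Nat.testBit_zero] at this
      simpa using this (by simpa using h1)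
    · have := h (i + 1)
      rw [Nat.testBit_succ, Nat.testBit_succ] at this
      exact this hi
  · rintro ⟨h1, h2⟩ i hi
    cases i with
    | zero =>
      rw [Nat.testBit_zero] at hi ⊢
      simpa using h1 (by simpa using hi)
    | succ i =>
      rw [Nat.testBit_succ] at hi ⊢
      exact h2 i hi

theorem Msk_zero_right {a : ℕ} (h : Msk a 0) : a = 0 := by
  apply Nat.eq_of_testBit_eq
  intro i
  rw [Nat.zero_testBit]
  by_contra h1
  have h2 := h i (by simpa using h1)
  rw [Nat.zero_testBit] at h2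
  exact absurd h2 (by simp)

theorem Msk_zero_left (b : ℕ) : Msk 0 b := by
  intro i hi
  rw [Nat.zero_testBit] at hi
  exact absurd hi (by simp)

theorem Msk_iff_choose (b a : ℕ) : Msk a b ↔ b.choose a % 2 = 1 := by
  induction b using Nat.strong_induction_on generalizing a with
  | _ b ih =>
    rcases Nat.eq_zero_or_pos b with rfl | hb
    · constructor
      · intro h
        rw [Msk_zero_right h]
        rfl
      · intro h
        cases a with
        | zero => exact Msk_zero_left 0
        | succ a => simp at h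
    · have hl : b.choose a ≡ (b % 2).choose (a % 2) * (b / 2).choose (a / 2) [MOD 2] :=
        Choose.choose_modEq_choose_mod_mul_choose_div_nat
      rw [hl, Msk_div2, ih (b / 2) (by omega)]
      rcases Nat.mod_two_eq_zero_or_one a with h1 | h1 <;>
        rcases Nat.mod_two_eq_zero_or_one b with h2 | h2 <;> rw [h1, h2] <;> simp

theorem Msk_cons {q a b a0 b0 : ℕ} (ha : a0 < 2 ^ q) (hb : b0 < 2 ^ q) :
    Msk (a0 + 2 ^ q * a) (b0 + 2 ^ q * b) ↔ Msk a0 b0 ∧ Msk a b := by
  rw [add_comm a0, add_comm b0]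
  constructor
  · intro h
    refine ⟨fun i hi => ?_, fun i hi => ?_⟩
    · have hiq : i < q := by
        by_contra hge
        rw [Nat.testBit_lt_two_pow (lt_of_lt_of_le ha
          (Nat.pow_le_pow_right (by norm_num) (not_lt.1 hge)))] at hi
        exact absurd hi (by simp)
      have := h i
      rw [Nat.testBit_two_pow_mul_add _ ha, Nat.testBit_two_pow_mul_add _ hb, if_pos hiq,
        if_pos hiq] at this
      exact this hi
    · have := h (q + i)
      rw [Nat.testBit_two_pow_mul_add _ ha, Nat.testBit_two_pow_mul_add _ hb,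
        if_neg (by omega), if_neg (by omega), Nat.add_sub_cancel_left] at this
      exact this hi
  · rintro ⟨h1, h2⟩ i hi
    rw [Nat.testBit_two_pow_mul_add _ ha] at hi
    rw [Nat.testBit_two_pow_mul_add _ hb]
    by_cases hiq : i < q
    · rw [if_pos hiq] at hi ⊢
      exact h1 i hi
    · rw [if_neg hiq] at hi ⊢
      exact h2 _ hi

theorem Msk_one {a : ℕ} : Msk a 1 ↔ a ≤ 1 := by
  rw [Msk_div2]
  constructor
  · rintro ⟨_, h⟩
    have := Msk_zero_right (a := a / 2) h
    omega
  · intro h
    refine ⟨fun _ => rfl, ?_⟩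
    have : a / 2 = 0 := by omega
    rw [this]
    exact Msk_zero_left _

theorem Msk_mask {a c : ℕ} : Msk a (2 ^ c - 1) ↔ a < 2 ^ c := by
  constructor
  · intro h
    apply Nat.lt_pow_two_of_testBit
    intro i hi
    by_contra h1
    have := h i (by simpa using h1)
    rw [Nat.testBit_two_pow_sub_one] at this
    simp at this
    omega
  · intro h i hi
    rw [Nat.testBit_two_pow_sub_one]
    by_contra h1
    have h2 : c ≤ i := by simpa using h1
    rw [Nat.testBit_lt_two_pow (lt_of_lt_of_le h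
      (Nat.pow_le_pow_right (by norm_num) h2))] at hi
    exact absurd hi (by simp)

theorem digit_sum_lt (u : ℕ) (f : ℕ → ℕ) (hf : ∀ i, f i < u) (k : ℕ) :
    ∑ i ∈ Finset.range k, f i * u ^ i < u ^ k := by
  induction k with
  | zero => simp
  | succ k ih =>
    rw [Finset.sum_range_succ]
    have h1 : f k * u ^ k + u ^ k ≤ u ^ (k + 1) := by
      have h2 : (f k + 1) * u ^ k ≤ u * u ^ k := Nat.mul_le_mul_right _ (hf k)
      rw [pow_succ]
      nlinarith [h2]
    omega

theorem digit_eq (u : ℕ) (f : ℕ → ℕ) (hf : ∀ i, f i < u) (k m : ℕ) :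
    (∑ i ∈ Finset.range (k + 1 + m), f i * u ^ i) / u ^ k % u = f k := by
  have hu : 0 < u := lt_of_le_of_lt (Nat.zero_le _) (hf 0)
  rw [Finset.sum_range_add, Finset.sum_range_succ]
  have h1 : ∑ x ∈ Finset.range m, f (k + 1 + x) * u ^ (k + 1 + x) =
      u ^ k * (u * ∑ x ∈ Finset.range m, f (k + 1 + x) * u ^ x) := by
    rw [Finset.mul_sum, Finset.mul_sum]
    refine Finset.sum_congr rfl fun x _ => ?_
    rw [pow_add, pow_add]
    ring
  rw [h1, show ∑ i ∈ Finset.range k, f i * u ^ i + f k * u ^ k +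
    u ^ k * (u * ∑ x ∈ Finset.range m, f (k + 1 + x) * u ^ x) =
    ∑ i ∈ Finset.range k, f i * u ^ i + u ^ k *
      (f k + u * ∑ x ∈ Finset.range m, f (k + 1 + x) * u ^ x) by ring,
    Nat.add_mul_div_left _ _ (pow_pos hu k), Nat.div_eq_of_lt (digit_sum_lt u f hf k), zero_add,
    Nat.add_mul_mod_self_left, Nat.mod_eq_of_lt (hf k)]

theorem choose_eq (n k : ℕ) :
    n.choose k = (2 ^ n + 1 + 1) ^ n / (2 ^ n + 1) ^ k % (2 ^ n + 1) := by
  have hf : ∀ i, n.choose i < 2 ^ n + 1 := fun i => Nat.lt_succ_of_le (Nat.choose_le_two_pow n i)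
  rw [← digit_eq (2 ^ n + 1) (fun i => n.choose i) hf k n]
  congr 2
  rw [add_pow]
  rw [show k + 1 + n = (n + 1) + k by ring, Finset.sum_range_add (fun i => n.choose i *
    (2 ^ n + 1) ^ i) (n + 1) k]
  have h1 : ∑ x ∈ Finset.range k, n.choose (n + 1 + x) * (2 ^ n + 1) ^ (n + 1 + x) = 0 := by
    apply Finset.sum_eq_zero
    intro x _
    rw [Nat.choose_eq_zero_of_lt (by omega), zero_mul]
  rw [h1, add_zero]
  refine Finset.sum_congr rfl fun x _ => ?_
  rw [one_pow, mul_one, mul_comm]
  rfl

section dioph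

open Dioph

variable {α : Type} {f g : (α → ℕ) → ℕ}

theorem choose_dioph (df : DiophFn f) (dg : DiophFn g) : DiophFn fun v => (f v).choose (g v) := by
  have h1 : DiophFn fun v => 2 ^ (f v) + 1 :=
    Dioph.add_dioph (Dioph.pow_dioph (Dioph.const_dioph 2) df) (Dioph.const_dioph 1)
  have h2 : DiophFn fun v => (2 ^ (f v) + 1 + 1) ^ (f v) / (2 ^ (f v) + 1) ^ (g v) %
      (2 ^ (f v) + 1) :=
    Dioph.mod_dioph (Dioph.div_dioph (Dioph.pow_dioph (Dioph.add_dioph h1
      (Dioph.const_dioph 1)) df) (Dioph.pow_dioph h1 dg)) h1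
  have h3 : (fun v => (f v).choose (g v)) = fun v => (2 ^ (f v) + 1 + 1) ^ (f v) /
      (2 ^ (f v) + 1) ^ (g v) % (2 ^ (f v) + 1) := by
    funext v
    exact choose_eq _ _
  rw [h3]
  exact h2

theorem msk_dioph (df : DiophFn f) (dg : DiophFn g) : Dioph {v | Msk (f v) (g v)} := by
  have h1 : Dioph {v | (g v).choose (f v) % 2 = 1} :=
    Dioph.eq_dioph (Dioph.mod_dioph (choose_dioph dg df) (Dioph.const_dioph 2))
      (Dioph.const_dioph 1)
  exact Dioph.ext h1 fun v => (Msk_iff_choose _ _).symm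

end dioph

end Pool.Agent.Helper55.OneRel
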