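import Mathlib

set_option autoImplicit false

namespace Pool.Agent.Helper55.OneRel

/-! Partial cancellation of words over five letters `a = 0`, `b = 1`, `s = 2`, `α = 3`, `β = 4`,
with the cancelling pairs `aα`, `as`, `bs`, `bβ`. -/

/-- words -/
abbrev Wd : Type := List (Fin 5)

/-- cancelling pairs of letters -/
def cp (x y : Fin 5) : Bool :=
  match x, y with
  | 0, 2 => true
  | 0, 3 => true
  | 1, 2 => true
  | 1, 4 => true
  | _, _ => false

/-- multiplication by a letter on the left, with cancellation -/
def push (x : Fin 5) : Wd → Wd
  | [] => [x]
  | y :: l => if cp x y then l else x :: y :: l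

/-- multiplication by a word on the left, with cancellation -/
def act (u v : Wd) : Wd := u.foldr push v

/-- normal words -/
def Nm (u : Wd) : Prop := u.IsChain (fun x y => cp x y = false)

/-- words without the letters `a`, `b` -/
def LW (u : Wd) : Prop := ∀ x ∈ u, x ≠ 0 ∧ x ≠ 1

theorem act_nil (v : Wd) : act [] v = v := rfl

theorem act_cons (x : Fin 5) (u v : Wd) : act (x :: u) v = push x (act u v) := rfl

theorem act_append (u v x : Wd) : act (u ++ v) x = act u (act v x) := by
  unfold act
  rw [List.foldr_append]

theorem push_push {x y : Fin 5} (h : cp x y = true) (v : Wd) : push x (push y v) = v := by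
  have h1 : ∀ z, cp y z = false := by
    revert h
    revert x y
    decide
  have h2 : push y v = y :: v := by
    cases v with
    | nil => rfl
    | cons z l => simp [push, h1]
  rw [h2]
  simp [push, h]

theorem push_of_L {y : Fin 5} (h : y ≠ 0 ∧ y ≠ 1) (v : Wd) : push y v = y :: v := by
  have h1 : ∀ z, cp y z = false := by
    revert h
    revert y
    decide
  cases v with
  | nil => rfl
  | cons z l => simp [push, h1]

theorem act_of_L {u : Wd} (h : LW u) (v : Wd) : act u v = u ++ v := by
  induction u with
  | nil => rfl
  | cons x u ih =>
    rw [act_cons, ih (fun y hy => h y (List.mem_cons_of_mem _ hy)),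
      push_of_L (h x List.mem_cons_self)]
    rfl

/-- the normal form -/
def nf (u : Wd) : Wd := act u []

theorem nf_append (u v : Wd) : nf (u ++ v) = act u (nf v) := act_append u v []

theorem act_nf (u v : Wd) : act (nf u) v = act u v := by
  induction u with
  | nil => rfl
  | cons x u ih =>
    show act (push x (nf u)) v = push x (act u v)
    rw [← ih]
    cases h : nf u with
    | nil => rfl
    | cons y l =>
      by_cases hc : cp x y = true
      · rw [act_cons, push_push hc]
        simp only [push, hc, if_true]
      · simp only [push, hc]
        rfl

theorem Nm_push (x : Fin 5) {u : Wd} (h : Nm u) : Nm (push x u) := by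
  cases u with
  | nil => exact List.isChain_singleton x
  | cons y l =>
    by_cases hc : cp x y = true
    · simp only [push, hc, if_true]
      exact h.tail
    · simp only [push, hc]
      exact List.isChain_cons_cons.2 ⟨by simpa using hc, h⟩

theorem Nm_nf (u : Wd) : Nm (nf u) := by
  induction u with
  | nil => exact List.isChain_nil
  | cons x u ih => exact Nm_push x ih

theorem act_of_Nm {u v : Wd} (h : Nm (u ++ v)) : act u v = u ++ v := by
  induction u with
  | nil => rfl
  | cons x u ih =>
    have h1 : Nm (u ++ v) := by
      rw [List.cons_append] at h
      exact h.tail
    rw [act_cons, ih h1]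
    rw [List.cons_append] at h
    cases h2 : u ++ v with
    | nil =>
      rw [List.cons_append, h2]
      rfl
    | cons y l =>
      rw [h2] at h
      have := (List.isChain_cons_cons.1 h).1
      rw [List.cons_append, h2]
      simp [push, this]

theorem nf_of_Nm {u : Wd} (h : Nm u) : nf u = u := by
  have := act_of_Nm (u := u) (v := []) (by rwa [List.append_nil])
  rw [List.append_nil] at this
  exact this

theorem length_push (x : Fin 5) (v : Wd) : (push x v).length ≤ v.length + 1 := by
  cases v with
  | nil => simp [push]
  | cons y l =>
    by_cases hc : cp x y = true
    · simp only [push, hc, if_true, List.length_cons]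
      omega
    · simp only [push, hc]
      simp

theorem push_of_length {x : Fin 5} {v : Wd} (h : (push x v).length = v.length + 1) :
    push x v = x :: v := by
  cases v with
  | nil => rfl
  | cons y l =>
    by_cases hc : cp x y = true
    · simp only [push, hc, if_true, List.length_cons] at h
      omega
    · simp only [push, hc]
      rfl

theorem length_act (u v : Wd) : (act u v).length ≤ u.length + v.length := by
  induction u with
  | nil => simp [act_nil]
  | cons x u ih =>
    rw [act_cons]
    have := length_push x (act u v)
    simp only [List.length_cons]
    omega

theorem act_of_length {u v : Wd} (h : (act u v).length = u.length + v.length) :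
    act u v = u ++ v := by
  induction u with
  | nil => rfl
  | cons x u ih =>
    rw [act_cons] at h
    have h1 := length_push x (act u v)
    have h2 := length_act u v
    simp only [List.length_cons] at h
    rw [act_cons, push_of_length (by omega), ih (by omega)]
    rfl

/-- a normal word commuting with a word without `a`, `b` -/
theorem comm_L {y u : Wd} (hu : LW u) (h : act y u = act u y) : y ++ u = u ++ y := by
  rw [act_of_L hu y] at h
  have h1 : act y u = y ++ u := by
    apply act_of_length
    rw [h, List.length_append]
    omega
  rw [← h1, h]

theorem Nm_snoc_R {y : Wd} (hy : Nm y) {x : Fin 5} (hx : x = 0 ∨ x = 1) : Nm (y ++ [x]) := by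
  refine List.isChain_append.2 ⟨hy, List.isChain_singleton x, ?_⟩
  intro a _ b hb
  have : b = x := by
    simp at hb
    exact hb.symm
  subst this
  have key : ∀ a b : Fin 5, (b = 0 ∨ b = 1) → cp a b = false := by decide
  exact key a b hx

/-- a normal word commuting with `a` -/
theorem comm_R {y : Wd} (hy : Nm y) (h : act y [0] = push 0 y) : y ++ [0] = [0] ++ y := by
  have h1 : act y [0] = y ++ [0] := act_of_Nm (Nm_snoc_R hy (Or.inl rfl))
  rw [h1] at h
  have h2 : push 0 y = 0 :: y := by
    apply push_of_length
    rw [← h]
    simp
  rw [h, h2]
  rfl

theorem eq_replicate {y : Wd} {x : Fin 5} (h : y ++ [x] = [x] ++ y) :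
    y = List.replicate y.length x := by
  induction y with
  | nil => rfl
  | cons z y ih =>
    simp only [List.cons_append, List.nil_append, List.cons.injEq] at h
    obtain ⟨h1, h2⟩ := h
    subst h1
    rw [List.length_cons, List.replicate_succ, ← ih h2]

/-- words with product one -/
theorem act_eq_nil {x z : Wd} (hx : Nm x) (hz : Nm z) (h : act x z = []) :
    List.Forall₂ (fun c l => cp c l = true) x.reverse z := by
  induction z generalizing x with
  | nil =>
    have : nf x = [] := h
    rw [nf_of_Nm hx] at this
    subst this
    exact List.Forall₂.nil
  | cons l z ih =>
    rcases List.eq_nil_or_concat x with rfl | ⟨x', c, rfl⟩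
    · exact absurd h (by simp [act_nil])
    · rw [List.concat_eq_append] at *
      by_cases hc : cp c l = true
      · rw [act_append] at h
        have h1 : act [c] (l :: z) = z := by
          show push c (l :: z) = z
          simp [push, hc]
        rw [h1] at h
        have hx' : Nm x' := by
          have := List.isChain_append.1 hx
          exact this.1
        have := ih hx' hz.tail h
        rw [List.reverse_append]
        exact List.Forall₂.cons hc this
      · exfalso
        have h1 : Nm ((x' ++ [c]) ++ (l :: z)) := by
          refine List.isChain_append.2 ⟨hx, hz, ?_⟩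
          intro a ha b hb
          simp at ha hb
          subst ha
          subst hb
          simpa using hc
        rw [act_of_Nm h1] at h
        simp at h

end Pool.Agent.Helper55.OneRel
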